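import Pool.Agent.H22.GQ.Perm

set_option autoImplicit false

open Module TensorProduct

namespace H22GQ

section M

variable {k G V : Type*} [Field k] [Group G] [AddCommGroup V] [Module k V]

theorem exists_M [CharP k 2] [PerfectRing k 2] [FiniteDimensional k V] {ρ : Representation k G V}
    (c : V ⊗[k] V →ₗ[k] V ⊗[k] V)
    (hc : ∀ g s, c (TensorProduct.map (ρ g) (ρ g) s) = TensorProduct.map (ρ g) (ρ g) (c s))
    (h1 : ∀ s, TensorProduct.comm k V V (c s) = c s) (h2 : ∀ s, c (TensorProduct.comm k V V s) = c s) :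
    ∃ M : V →ₗ[k] V, (∀ g x, M (ρ g x) = ρ g (M x)) ∧
      LinearMap.trace k _ c = LinearMap.trace k _ M ^ 2 := by
  choose β₀ hβ using fun x y : V => exists_root (h1 (x ⊗ₜ[k] y))
  have heq : ∀ (g : G) (x y : V), β₀ (ρ g x) (ρ g y) = ρ g (β₀ x y) := fun g x y => uniq (k := k) fun φ => by
    have e1 : φ (ρ g (β₀ x y)) = (φ ∘ₗ ρ g) (β₀ x y) := rfl
    rw [e1, hβ, hβ, ← TensorProduct.map_tmul, hc, ev_map]
  let M : V →ₗ[k] V :=
    { toFun := fun x => β₀ x x
      map_add' := fun x y => uniq (k := k) fun φ => by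
        have e1 : c (y ⊗ₜ x) = c (x ⊗ₜ y) := by rw [← h2 (x ⊗ₜ y), TensorProduct.comm_tmul]
        rw [map_add, sq_add, hβ, hβ, hβ, TensorProduct.add_tmul, TensorProduct.tmul_add,
          TensorProduct.tmul_add, map_add, map_add, map_add, map_add, map_add, map_add, e1]
        have e2 := two_k (ev φ φ (c (x ⊗ₜ y)))
        linear_combination e2
      map_smul' := fun a x => uniq (k := k) fun φ => by
        rw [RingHom.id_apply, map_smul, smul_eq_mul, mul_pow, hβ, hβ, ← TensorProduct.smul_tmul',
          TensorProduct.tmul_smul, map_smul, map_smul, map_smul, map_smul, smul_eq_mul, smul_eq_mul, sq,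
          mul_assoc] }
  have hM : ∀ x, M x = β₀ x x := fun x => rfl
  refine ⟨M, fun g x => by rw [hM, hM, heq], ?_⟩
  classical
  let b := Module.finBasis k V
  have hrep : ∀ (s : V ⊗[k] V) i j, (b.tensorProduct b).repr s (i, j) = ev (b.coord i) (b.coord j) s := by
    intro s i j
    induction s using TensorProduct.induction_on with
    | zero => simp
    | tmul x y =>
      rw [Basis.tensorProduct_repr_tmul_apply, ev_tmul, Basis.coord_apply, Basis.coord_apply,
        smul_eq_mul, mul_comm]
    | add s s' h h' => rw [map_add, Finsupp.add_apply, h, h', map_add]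
  rw [LinearMap.trace_eq_matrix_trace k (b.tensorProduct b) c, LinearMap.trace_eq_matrix_trace k b M,
    Matrix.trace, Matrix.trace]
  have e1 : ∀ p, Matrix.diag (LinearMap.toMatrix (b.tensorProduct b) (b.tensorProduct b) c) p =
      ev (b.coord p.1) (b.coord p.2) (c (b p.1 ⊗ₜ b p.2)) := by
    intro p
    rw [Matrix.diag_apply, LinearMap.toMatrix_apply, Basis.tensorProduct_apply', hrep]
  have e2 : ∀ i, Matrix.diag (LinearMap.toMatrix b b M) i ^ 2 =
      ev (b.coord i) (b.coord i) (c (b i ⊗ₜ b i)) := by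
    intro i
    rw [Matrix.diag_apply, LinearMap.toMatrix_apply, ← Basis.coord_apply, hM, hβ]
  have e3 : ∀ (ι : Type) (S : Finset ι) (f : ι → k), (∑ i ∈ S, f i) ^ 2 = ∑ i ∈ S, f i ^ 2 := by
    intro ι S f
    induction S using Finset.induction_on with
    | empty => simp
    | insert a S ha ih => rw [Finset.sum_insert ha, Finset.sum_insert ha, sq_add, ih]
  rw [e3]
  simp only [e1, e2]
  rw [← Finset.sum_filter_add_sum_filter_not Finset.univ
    (fun p : Fin (finrank k V) × Fin (finrank k V) => p.1 = p.2)]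
  have e4 : ∑ p ∈ Finset.univ.filter
      (fun p : Fin (finrank k V) × Fin (finrank k V) => ¬ p.1 = p.2),
      ev (b.coord p.1) (b.coord p.2) (c (b p.1 ⊗ₜ b p.2)) = 0 := by
    refine Finset.sum_involution (fun p _ => (p.2, p.1)) ?_ ?_ ?_ ?_
    · intro p _
      have e5 : ev (b.coord p.2) (b.coord p.1) (c (b p.2 ⊗ₜ b p.1)) =
          ev (b.coord p.1) (b.coord p.2) (c (b p.1 ⊗ₜ b p.2)) := by
        rw [← ev_comm, h1, ← h2, TensorProduct.comm_tmul]
      show _ + ev (b.coord p.2) (b.coord p.1) (c (b p.2 ⊗ₜ b p.1)) = 0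
      rw [e5]
      exact two_k _
    · intro p hp _ h
      rw [Finset.mem_filter] at hp
      exact hp.2 (congrArg Prod.snd h)
    · intro p hp
      rw [Finset.mem_filter] at hp ⊢
      exact ⟨Finset.mem_univ _, fun h => hp.2 h.symm⟩
    · intro p _
      rfl
  rw [e4, add_zero]
  symm
  refine Finset.sum_bij (fun i _ => (i, i)) ?_ ?_ ?_ ?_
  · intro i _
    rw [Finset.mem_filter]
    exact ⟨Finset.mem_univ _, rfl⟩
  · intro i _ j _ h
    exact congrArg Prod.fst h
  · intro p hp
    rw [Finset.mem_filter] at hp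
    exact ⟨p.1, Finset.mem_univ _, Prod.ext rfl hp.2⟩
  · intro i _
    rfl

theorem odd_of_trace [IsAlgClosed k] [CharP k 2] [FiniteDimensional k V] {ρ : Representation k G V}
    (hind : Indec ρ) (M : V →ₗ[k] V) (hM : ∀ g x, M (ρ g x) = ρ g (M x))
    (h : LinearMap.trace k V M ≠ 0) : Odd (finrank k V) := by
  have := hind.1
  obtain ⟨a, ha⟩ := Module.End.exists_eigenvalue M
  obtain ⟨v, hv⟩ := ha.exists_hasEigenvector
  let N : V →ₗ[k] V := M - a • LinearMap.id
  have hN : ∀ x, N x = M x - a • x := fun x => rfl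
  have hNv : N v = 0 := by rw [hN, hv.apply_eq_smul, sub_self]
  have hnil : ∃ n, ∀ x, N^[n] x = 0 := by
    by_contra hcon
    push Not at hcon
    have hb : Function.Bijective N :=
      bij_of_not_nil (RingEquiv.refl k) N (map_add N) (fun a x => map_smul N a x) hind
        (fun g x => by rw [hN, hN, hM, map_sub, map_smul]) hcon
    exact hv.2 (hb.1 (by rw [hNv, map_zero]))
  obtain ⟨n, hn⟩ := hnil
  have h5 : IsNilpotent N := ⟨n, by
    ext x
    rw [Module.End.pow_apply]
    exact hn x⟩
  have h6 : LinearMap.trace k V N = 0 := (LinearMap.isNilpotent_trace_of_isNilpotent h5).eq_zero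
  have h7 : LinearMap.trace k V M = a * (finrank k V : k) := by
    have h8 : LinearMap.trace k V N = LinearMap.trace k V M - a * (finrank k V : k) := by
      show LinearMap.trace k V (M - a • LinearMap.id) = _
      rw [map_sub, map_smul, LinearMap.trace_id, smul_eq_mul]
    rw [h6] at h8
    exact (sub_eq_zero.1 h8.symm)
  by_contra hev
  rw [Nat.not_odd_iff_even] at hev
  obtain ⟨q, hq⟩ := hev
  apply h
  have h2 : (2 : k) = 0 := by exact_mod_cast CharP.cast_eq_zero k 2
  rw [h7, hq]
  push_cast
  rw [← two_mul, h2, zero_mul, mul_zero]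

end M

section R

variable {k G : Type*} [Field k] [Group G] {X U : Type*} [AddCommGroup X] [Module k X]
  [AddCommGroup U] [Module k U]

theorem map_comm' (f : X →ₗ[k] U) (s : X ⊗[k] X) : TensorProduct.comm k U U (TensorProduct.map f f s) =
    TensorProduct.map f f (TensorProduct.comm k X X s) := by
  induction s using TensorProduct.induction_on with
  | zero => simp
  | tmul x y => rfl
  | add s s' h h' => rw [map_add, map_add, map_add, map_add, h, h']

theorem map_eq' {σ : Representation k G X} {τ : Representation k G U} (f : X →ₗ[k] U)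
    (hf : ∀ g x, f (σ g x) = τ g (f x)) (g : G) (s : X ⊗[k] X) :
    TensorProduct.map f f (TensorProduct.map (σ g) (σ g) s) =
      TensorProduct.map (τ g) (τ g) (TensorProduct.map f f s) := by
  induction s using TensorProduct.induction_on with
  | zero => simp
  | tmul x y =>
    show f (σ g x) ⊗ₜ f (σ g y) = τ g (f x) ⊗ₜ τ g (f y)
    rw [hf, hf]
  | add s s' h h' => rw [map_add, map_add, map_add, map_add, h, h']

theorem HasTriv.lift {σ : Representation k G X} {τ : Representation k G U} (h : HasTriv τ)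
    (i : U →ₗ[k] X) (p : X →ₗ[k] U) (hi : ∀ g u, i (τ g u) = σ g (i u))
    (hp : ∀ g x, p (σ g x) = τ g (p x)) (hpi : ∀ u, p (i u) = u) : HasTriv σ := by
  obtain ⟨t, w, ht, hw, hn⟩ := h
  refine ⟨t ∘ₗ p, i w, fun g x => ?_, fun g => ?_, ?_⟩
  · show t (p (σ g x)) = t (p x)
    rw [hp, ht]
  · rw [← hi, hw]
  · show t (p (i w)) ≠ 0
    rw [hpi]
    exact hn

theorem proj_eq (σ : Representation k G X) {A B : Submodule k X} (hA : St σ A) (hB : St σ B)
    (hc : IsCompl A B) (g : G) (x : X) :
    Submodule.projectionOnto A B hc (σ g x) = sub σ A hA g (Submodule.projectionOnto A B hc x) := by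
  have hc' := hc
  rw [isCompl_iff, Submodule.codisjoint_iff_exists_add_eq] at hc'
  obtain ⟨u, n, hu, hn, rfl⟩ := hc'.2 x
  have e1 : ∀ n ∈ B, Submodule.projectionOnto A B hc n = 0 :=
    fun n hn => (Submodule.projectionOnto_apply_eq_zero_iff _).2 hn
  have e2 : Submodule.projectionOnto A B hc u = ⟨u, hu⟩ :=
    Submodule.projectionOnto_apply_left hc ⟨u, hu⟩
  have e3 : Submodule.projectionOnto A B hc (σ g u) = ⟨σ g u, hA g u hu⟩ :=
    Submodule.projectionOnto_apply_left hc ⟨σ g u, hA g u hu⟩
  rw [map_add, map_add, e1 _ (hB g n hn), map_add, e1 n hn, e2, e3, add_zero, add_zero]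
  rfl

theorem proj_sum {A B : Submodule k X} (hc : IsCompl A B) (x : X) :
    (Submodule.projectionOnto A B hc x : X) + (Submodule.projectionOnto B A hc.symm x : X) = x := by
  have hc' := hc
  rw [isCompl_iff, Submodule.codisjoint_iff_exists_add_eq] at hc'
  obtain ⟨u, n, hu, hn, rfl⟩ := hc'.2 x
  have e1 : Submodule.projectionOnto A B hc n = 0 :=
    (Submodule.projectionOnto_apply_eq_zero_iff _).2 hn
  have e2 : Submodule.projectionOnto A B hc u = ⟨u, hu⟩ :=
    Submodule.projectionOnto_apply_left hc ⟨u, hu⟩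
  have e1' : Submodule.projectionOnto B A hc.symm u = 0 :=
    (Submodule.projectionOnto_apply_eq_zero_iff _).2 hu
  have e2' : Submodule.projectionOnto B A hc.symm n = ⟨n, hn⟩ :=
    Submodule.projectionOnto_apply_left hc.symm ⟨n, hn⟩
  rw [map_add, map_add, e1, e2, e1', e2', add_zero, zero_add]

end R

universe u v w

theorem core_gen {k : Type u} {G : Type v} [Field k] [Group G] [IsAlgClosed k] [CharP k 2]
    [PerfectRing k 2] [Finite G] (hG : IsPGroup 2 G) (n : ℕ) : ∀ (X : Type w) [AddCommGroup X]
    [Module k X] [FiniteDimensional k X] (σ : Representation k G X) (c : X ⊗[k] X →ₗ[k] X ⊗[k] X),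
    finrank k X = n →
    (∀ g s, c (TensorProduct.map (σ g) (σ g) s) = TensorProduct.map (σ g) (σ g) (c s)) →
    (∀ s, TensorProduct.comm k X X (c s) = c s) → (∀ s, c (TensorProduct.comm k X X s) = c s) →
    LinearMap.trace k _ c ≠ 0 → HasTriv σ := by
  induction n using Nat.strong_induction_on with
  | _ n ih =>
  intro X _ _ _ σ c hn hc h1 h2 h3
  by_cases hind : Indec σ
  · obtain ⟨M, hM, htr⟩ := exists_M c hc h1 h2
    have hMt : LinearMap.trace k X M ≠ 0 := fun h => h3 (by rw [htr, h]; exact zero_pow two_ne_zero)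
    have hodd := odd_of_trace hind M hM hMt
    have hd := core hG hind hodd c hc h1 h2 h3
    obtain ⟨v, hv, hvG⟩ := @exists_fixed k G X _ _ _ _ _ _ hG σ hind.1
    obtain ⟨φ, hφ⟩ : ∃ φ : X →ₗ[k] k, φ v ≠ 0 := by
      by_contra hcon
      push Not at hcon
      exact hv ((Module.forall_dual_apply_eq_zero_iff k v).1 hcon)
    refine ⟨φ, v, fun g x => ?_, hvG, hφ⟩
    obtain ⟨a, rfl⟩ := exists_smul_eq_of_finrank_eq_one hd hv x
    rw [map_smul, hvG]
  · have hnt : Nontrivial X := by
      by_contra hcon
      rw [not_nontrivial_iff_subsingleton] at hcon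
      apply h3
      have : c = 0 := by
        refine LinearMap.ext fun s => ?_
        have hs : ∀ s : X ⊗[k] X, s = 0 := by
          intro s
          induction s using TensorProduct.induction_on with
          | zero => rfl
          | tmul x y => rw [Subsingleton.elim x 0, TensorProduct.zero_tmul]
          | add s s' h h' => rw [h, h', add_zero]
        rw [hs (c s), LinearMap.zero_apply]
      rw [this, map_zero]
    have : ∃ A B : Submodule k X, St σ A ∧ St σ B ∧ IsCompl A B ∧ A ≠ ⊥ ∧ B ≠ ⊥ := by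
      by_contra hcon
      push Not at hcon
      refine hind ⟨hnt, fun A B hA hB hAB => ?_⟩
      by_contra h
      push Not at h
      exact h.2 (hcon A B hA hB hAB h.1)
    obtain ⟨A, B, hA, hB, hAB, hA0, hB0⟩ := this
    have main : ∀ (A B : Submodule k X) (hA : St σ A) (hB : St σ B) (hAB : IsCompl A B), B ≠ ⊥ →
        LinearMap.trace k _ (TensorProduct.map (Submodule.projectionOnto A B hAB)
          (Submodule.projectionOnto A B hAB) ∘ₗ c ∘ₗ TensorProduct.map A.subtype A.subtype) ≠ 0 →
        HasTriv σ := by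
      intro A B hA hB hAB hB0 htr
      have hdim : finrank k A + finrank k B = finrank k X := Submodule.finrank_add_eq_of_isCompl hAB
      have hpos : 0 < finrank k B := by
        rw [Nat.pos_iff_ne_zero]
        intro h
        exact hB0 (Submodule.finrank_eq_zero.1 h)
      refine (ih (finrank k A) (by omega) A (sub σ A hA) _ rfl (fun g s => ?_) (fun s => ?_)
        (fun s => ?_) htr).lift A.subtype (Submodule.projectionOnto A B hAB) (fun g u => rfl)
        (proj_eq σ hA hB hAB) (fun u => Submodule.projectionOnto_apply_left hAB u)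
      · show TensorProduct.map _ _ (c (TensorProduct.map _ _ _)) = _
        rw [map_eq' (σ := sub σ A hA) (τ := σ) A.subtype (fun g u => rfl), hc,
          map_eq' (σ := σ) (τ := sub σ A hA) _ (proj_eq σ hA hB hAB)]
        rfl
      · show TensorProduct.comm k A A (TensorProduct.map _ _ (c _)) = TensorProduct.map _ _ (c _)
        rw [map_comm', h1]
      · show TensorProduct.map _ _ (c (TensorProduct.map _ _ (TensorProduct.comm k A A s))) =
          TensorProduct.map _ _ (c _)
        rw [← map_comm', h2]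
    by_contra hno
    have hA1 := mt (main A B hA hB hAB hB0) hno
    have hB1 := mt (main B A hB hA hAB.symm hA0) hno
    rw [not_not] at hA1 hB1
    let P : X →ₗ[k] X := A.subtype ∘ₗ Submodule.projectionOnto A B hAB
    let Q : X →ₗ[k] X := B.subtype ∘ₗ Submodule.projectionOnto B A hAB.symm
    have hPQ : P + Q = LinearMap.id := LinearMap.ext fun x => proj_sum hAB x
    have eP : LinearMap.trace k _ (c ∘ₗ TensorProduct.map P P) = 0 := by
      rw [← hA1]
      show LinearMap.trace k _ (c ∘ₗ TensorProduct.map (A.subtype ∘ₗ _) (A.subtype ∘ₗ _)) = _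
      rw [TensorProduct.map_comp, ← LinearMap.comp_assoc, LinearMap.trace_comp_comm']
    have eQ : LinearMap.trace k _ (c ∘ₗ TensorProduct.map Q Q) = 0 := by
      rw [← hB1]
      show LinearMap.trace k _ (c ∘ₗ TensorProduct.map (B.subtype ∘ₗ _) (B.subtype ∘ₗ _)) = _
      rw [TensorProduct.map_comp, ← LinearMap.comp_assoc, LinearMap.trace_comp_comm']
    let τ : X ⊗[k] X →ₗ[k] X ⊗[k] X := (TensorProduct.comm k X X).toLinearMap
    have hcτ : c ∘ₗ τ = c := LinearMap.ext h2
    have hτc : τ ∘ₗ c = c := LinearMap.ext h1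
    have hsw : τ ∘ₗ TensorProduct.map P Q = TensorProduct.map Q P ∘ₗ τ := by
      ext x y
      rfl
    have ePQ : LinearMap.trace k _ (c ∘ₗ TensorProduct.map P Q) =
        LinearMap.trace k _ (c ∘ₗ TensorProduct.map Q P) := by
      conv_lhs => rw [← hcτ]
      rw [LinearMap.comp_assoc, hsw, ← LinearMap.comp_assoc, LinearMap.trace_comp_comm',
        ← LinearMap.comp_assoc, hτc]
    apply h3
    have hid : (LinearMap.id : X ⊗[k] X →ₗ[k] X ⊗[k] X) = TensorProduct.map (P + Q) (P + Q) := by
      rw [hPQ, TensorProduct.map_id]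
    have h4 : c = c ∘ₗ TensorProduct.map (P + Q) (P + Q) := by rw [← hid, LinearMap.comp_id]
    rw [h4, TensorProduct.map_add_left, TensorProduct.map_add_right, TensorProduct.map_add_right,
      LinearMap.comp_add, LinearMap.comp_add, LinearMap.comp_add, map_add, map_add, map_add, eP, eQ, ePQ,
      zero_add, add_zero]
    exact two_k _

end H22GQ
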