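import Pool.Agent.H22.GQ.Mult

set_option autoImplicit false

open Module TensorProduct

namespace H22GQ

variable {k G V : Type*} [Field k] [Group G] [AddCommGroup V] [Module k V]

/-- `φ ⊗ ψ` as a linear form on `V ⊗ V` -/
noncomputable def ev (φ ψ : Dual k V) : V ⊗[k] V →ₗ[k] k := LinearMap.mul' k k ∘ₗ TensorProduct.map φ ψ

theorem ev_tmul (φ ψ : Dual k V) (x y : V) : ev φ ψ (x ⊗ₜ y) = φ x * ψ y := rfl

theorem ev_add_left (φ φ' ψ : Dual k V) (s : V ⊗[k] V) : ev (φ + φ') ψ s = ev φ ψ s + ev φ' ψ s := by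
  unfold ev
  rw [TensorProduct.map_add_left]
  simp

theorem ev_add_right (φ ψ ψ' : Dual k V) (s : V ⊗[k] V) : ev φ (ψ + ψ') s = ev φ ψ s + ev φ ψ' s := by
  unfold ev
  rw [TensorProduct.map_add_right]
  simp

theorem ev_smul (a b : k) (φ ψ : Dual k V) (s : V ⊗[k] V) :
    ev (a • φ) (b • ψ) s = a * b * ev φ ψ s := by
  unfold ev
  rw [TensorProduct.map_smul_left, TensorProduct.map_smul_right]
  simp [mul_assoc]

theorem ev_comm (φ ψ : Dual k V) (s : V ⊗[k] V) : ev φ ψ (TensorProduct.comm k V V s) = ev ψ φ s := by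
  induction s using TensorProduct.induction_on with
  | zero => rw [map_zero, map_zero, map_zero]
  | tmul x y => rw [TensorProduct.comm_tmul, ev_tmul, ev_tmul, mul_comm]
  | add s s' h h' => rw [map_add, map_add, map_add, h, h']

theorem ev_map (φ ψ : Dual k V) (f g : V →ₗ[k] V) (s : V ⊗[k] V) :
    ev φ ψ (TensorProduct.map f g s) = ev (φ ∘ₗ f) (ψ ∘ₗ g) s := by
  induction s using TensorProduct.induction_on with
  | zero => rw [map_zero, map_zero, map_zero]
  | tmul x y => rfl
  | add s s' h h' => rw [map_add, map_add, map_add, h, h']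

theorem two_k [CharP k 2] (a : k) : a + a = 0 := by
  have h2 : (2 : k) = 0 := by exact_mod_cast CharP.cast_eq_zero k 2
  rw [← two_mul, h2, zero_mul]

theorem sq_add [CharP k 2] (a b : k) : (a + b) ^ 2 = a ^ 2 + b ^ 2 := by
  have h := two_k (a * b)
  linear_combination h

theorem uniq [CharP k 2] [FiniteDimensional k V] {u u' : V}
    (h : ∀ φ : Dual k V, φ u ^ 2 = φ u' ^ 2) : u = u' := by
  rw [← sub_eq_zero]
  refine (Module.forall_dual_apply_eq_zero_iff k _).1 fun φ => ?_
  have h1 := h φ
  have h2 : φ (u - u') ^ 2 = 0 := by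
    have h3 := sq_add (φ (u - u')) (φ u')
    rw [← map_add, sub_add_cancel, h1] at h3
    exact right_eq_add.1 h3
  exact pow_eq_zero_iff (two_ne_zero) |>.1 h2

/-- the square root -/
noncomputable def rt (k : Type*) [Field k] [CharP k 2] [PerfectRing k 2] : k ≃+* k :=
  (frobeniusEquiv k 2).symm

theorem rt_sq [CharP k 2] [PerfectRing k 2] (a : k) : rt k a ^ 2 = a := by
  have h := (frobeniusEquiv k 2).apply_symm_apply a
  rw [frobeniusEquiv_apply, frobenius_def] at h
  exact h

theorem rt_eq [CharP k 2] [PerfectRing k 2] {a b : k} (h : a ^ 2 = b) : rt k b = a := by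
  have h1 := rt_sq b
  rw [← h] at h1 ⊢
  have h2 : (rt k (a ^ 2) - a) ^ 2 = 0 := by
    have h3 := sq_add (rt k (a ^ 2) - a) a
    rw [sub_add_cancel, h1] at h3
    exact right_eq_add.1 h3
  exact sub_eq_zero.1 (pow_eq_zero_iff (two_ne_zero) |>.1 h2)

theorem exists_root [CharP k 2] [PerfectRing k 2] [FiniteDimensional k V] {s : V ⊗[k] V}
    (hs : TensorProduct.comm k V V s = s) : ∃ u : V, ∀ φ : Dual k V, φ u ^ 2 = ev φ φ s := by
  let B : Dual k (Dual k V) :=
    { toFun := fun φ => rt k (ev φ φ s)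
      map_add' := fun φ ψ => by
        refine rt_eq ?_
        rw [sq_add, rt_sq, rt_sq, ev_add_left, ev_add_right, ev_add_right]
        have h1 : ev ψ φ s = ev φ ψ s := by rw [← ev_comm φ ψ s, hs]
        rw [h1]
        have h2 := two_k (ev φ ψ s)
        linear_combination -h2
      map_smul' := fun a φ => by
        rw [RingHom.id_apply, smul_eq_mul]
        refine rt_eq ?_
        rw [mul_pow, rt_sq, ev_smul, sq] }
  refine ⟨(Module.evalEquiv k V).symm B, fun φ => ?_⟩
  rw [Module.apply_evalEquiv_symm_apply]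
  exact rt_sq _

theorem core [CharP k 2] [PerfectRing k 2] [FiniteDimensional k V] [Finite G] (hG : IsPGroup 2 G)
    {ρ : Representation k G V} (hind : Indec ρ) (hodd : Odd (finrank k V))
    (c : V ⊗[k] V →ₗ[k] V ⊗[k] V)
    (hc : ∀ g s, c (TensorProduct.map (ρ g) (ρ g) s) = TensorProduct.map (ρ g) (ρ g) (c s))
    (h1 : ∀ s, TensorProduct.comm k V V (c s) = c s) (h2 : ∀ s, c (TensorProduct.comm k V V s) = c s)
    (h3 : LinearMap.trace k _ c ≠ 0) : finrank k V = 1 := by
  choose β₀ hβ using fun x y : V => exists_root (h1 (x ⊗ₜ[k] y))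
  have a1 : ∀ x x' y : V, β₀ (x + x') y = β₀ x y + β₀ x' y := fun x x' y => uniq (k := k) fun φ => by
    rw [map_add, sq_add, hβ, hβ, hβ, TensorProduct.add_tmul, map_add, map_add]
  have a2 : ∀ x y y' : V, β₀ x (y + y') = β₀ x y + β₀ x y' := fun x y y' => uniq (k := k) fun φ => by
    rw [map_add, sq_add, hβ, hβ, hβ, TensorProduct.tmul_add, map_add, map_add]
  have s1 : ∀ (a : k) (x y : V), β₀ (a • x) y = rt k a • β₀ x y := fun a x y => uniq (k := k) fun φ => by
    rw [map_smul, smul_eq_mul, mul_pow, rt_sq, hβ, hβ, ← TensorProduct.smul_tmul', map_smul, map_smul,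
      smul_eq_mul]
  have s2 : ∀ (a : k) (x y : V), β₀ x (a • y) = rt k a • β₀ x y := fun a x y => uniq (k := k) fun φ => by
    rw [map_smul, smul_eq_mul, mul_pow, rt_sq, hβ, hβ, TensorProduct.tmul_smul, map_smul, map_smul,
      smul_eq_mul]
  have heq : ∀ (g : G) (x y : V), β₀ (ρ g x) (ρ g y) = ρ g (β₀ x y) := fun g x y => uniq (k := k) fun φ => by
    have e1 : φ (ρ g (β₀ x y)) = (φ ∘ₗ ρ g) (β₀ x y) := rfl
    rw [e1, hβ, hβ, ← TensorProduct.map_tmul, hc, ev_map]
  let M : V →ₗ[k] V :=
    { toFun := fun x => β₀ x x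
      map_add' := fun x y => uniq (k := k) fun φ => by
        have e1 : c (y ⊗ₜ x) = c (x ⊗ₜ y) := by rw [← h2 (x ⊗ₜ y), TensorProduct.comm_tmul]
        rw [map_add, sq_add, hβ, hβ, hβ, TensorProduct.add_tmul, TensorProduct.tmul_add,
          TensorProduct.tmul_add, map_add, map_add, map_add, map_add, map_add, map_add, e1]
        have e2 := two_k (ev φ φ (c (x ⊗ₜ y)))
        linear_combination e2
      map_smul' := fun a x => uniq (k := k) fun φ => by
        rw [RingHom.id_apply, map_smul, smul_eq_mul, mul_pow, hβ, hβ, ← TensorProduct.smul_tmul',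
          TensorProduct.tmul_smul, map_smul, map_smul, map_smul, map_smul, smul_eq_mul, smul_eq_mul, sq,
          mul_assoc] }
  have hM : ∀ x, M x = β₀ x x := fun x => rfl
  -- the trace
  have htr : LinearMap.trace k _ c = LinearMap.trace k _ M ^ 2 := by
    classical
    let b := Module.finBasis k V
    have hrep : ∀ (s : V ⊗[k] V) i j, (b.tensorProduct b).repr s (i, j) = ev (b.coord i) (b.coord j) s := by
      intro s i j
      induction s using TensorProduct.induction_on with
      | zero => simp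
      | tmul x y =>
        rw [Basis.tensorProduct_repr_tmul_apply, ev_tmul, Basis.coord_apply, Basis.coord_apply,
          smul_eq_mul, mul_comm]
      | add s s' h h' => rw [map_add, Finsupp.add_apply, h, h', map_add]
    rw [LinearMap.trace_eq_matrix_trace k (b.tensorProduct b) c, LinearMap.trace_eq_matrix_trace k b M,
      Matrix.trace, Matrix.trace]
    have e1 : ∀ p, Matrix.diag (LinearMap.toMatrix (b.tensorProduct b) (b.tensorProduct b) c) p =
        ev (b.coord p.1) (b.coord p.2) (c (b p.1 ⊗ₜ b p.2)) := by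
      intro p
      rw [Matrix.diag_apply, LinearMap.toMatrix_apply, Basis.tensorProduct_apply', hrep]
    have e2 : ∀ i, Matrix.diag (LinearMap.toMatrix b b M) i ^ 2 =
        ev (b.coord i) (b.coord i) (c (b i ⊗ₜ b i)) := by
      intro i
      rw [Matrix.diag_apply, LinearMap.toMatrix_apply, ← Basis.coord_apply, hM, hβ]
    have e3 : ∀ (ι : Type) (S : Finset ι) (f : ι → k), (∑ i ∈ S, f i) ^ 2 = ∑ i ∈ S, f i ^ 2 := by
      intro ι S f
      induction S using Finset.induction_on with
      | empty => simp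
      | insert a S ha ih => rw [Finset.sum_insert ha, Finset.sum_insert ha, sq_add, ih]
    rw [e3]
    simp only [e1, e2]
    rw [← Finset.sum_filter_add_sum_filter_not Finset.univ
      (fun p : Fin (finrank k V) × Fin (finrank k V) => p.1 = p.2)]
    have e4 : ∑ p ∈ Finset.univ.filter
        (fun p : Fin (finrank k V) × Fin (finrank k V) => ¬ p.1 = p.2),
        ev (b.coord p.1) (b.coord p.2) (c (b p.1 ⊗ₜ b p.2)) = 0 := by
      refine Finset.sum_involution (fun p _ => (p.2, p.1)) ?_ ?_ ?_ ?_
      · intro p _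
        have e5 : ev (b.coord p.2) (b.coord p.1) (c (b p.2 ⊗ₜ b p.1)) =
            ev (b.coord p.1) (b.coord p.2) (c (b p.1 ⊗ₜ b p.2)) := by
          rw [← ev_comm, h1, ← h2, TensorProduct.comm_tmul]
        show _ + ev (b.coord p.2) (b.coord p.1) (c (b p.2 ⊗ₜ b p.1)) = 0
        rw [e5]
        exact two_k _
      · intro p hp _ h
        rw [Finset.mem_filter] at hp
        exact hp.2 (congrArg Prod.snd h)
      · intro p hp
        rw [Finset.mem_filter] at hp ⊢
        exact ⟨Finset.mem_univ _, fun h => hp.2 h.symm⟩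
      · intro p _
        rfl
    rw [e4, add_zero]
    symm
    refine Finset.sum_bij (fun i _ => (i, i)) ?_ ?_ ?_ ?_
    · intro i _
      rw [Finset.mem_filter]
      exact ⟨Finset.mem_univ _, rfl⟩
    · intro i _ j _ h
      exact congrArg Prod.fst h
    · intro p hp
      rw [Finset.mem_filter] at hp
      exact ⟨p.1, Finset.mem_univ _, Prod.ext rfl hp.2⟩
    · intro i _
      rfl
  have hMtr : LinearMap.trace k _ M ≠ 0 := by
    intro h
    rw [h] at htr
    exact h3 (by rw [htr]; exact zero_pow two_ne_zero)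
  have hnil : ∀ n, ∃ x, M^[n] x ≠ 0 := by
    intro n
    by_contra hcon
    push Not at hcon
    apply hMtr
    have h5 : IsNilpotent M := ⟨n, by
      ext x
      rw [Module.End.pow_apply]
      exact hcon x⟩
    exact (LinearMap.isNilpotent_trace_of_isNilpotent h5).eq_zero
  have hbij : Function.Bijective M :=
    bij_of_not_nil (RingEquiv.refl k) M (map_add M) (fun a x => map_smul M a x) hind
      (fun g x => heq g x x) hnil
  let e : V ≃ₗ[k] V := LinearEquiv.ofBijective M hbij
  have he : ∀ x, e x = β₀ x x := fun x => rfl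
  have hsym : ∀ x, e.symm (β₀ x x) = x := fun x => by rw [← he, e.symm_apply_apply]
  obtain ⟨v, hv, hvG⟩ := @exists_fixed k G V _ _ _ _ _ _ hG ρ hind.1
  refine dim_one hind hodd (rt k) (fun x y => e.symm (β₀ x y)) (fun x x' y => by rw [a1, map_add])
    (fun x y y' => by rw [a2, map_add]) (fun a x y => by rw [s1, map_smul])
    (fun a x y => by rw [s2, map_smul]) (fun g x y => ?_) hv hvG (hsym v)
  apply e.injective
  rw [e.apply_symm_apply, heq]
  have h6 : ∀ z, e (ρ g z) = ρ g (e z) := fun z => by rw [he, he, heq]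
  rw [h6, e.apply_symm_apply]

end H22GQ
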