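import Pool.Agent.H22.GQ.Alg

set_option autoImplicit false

open Module TensorProduct

namespace H22GQ

variable {k G : Type*} [Field k] [Group G] {V : Type*} [AddCommGroup V] [Module k V]

/-- the action of a permutation of the factors -/
noncomputable def fx {m : ℕ} {Y : Type*} [AddCommGroup Y] [Module k Y] (s : Equiv.Perm (Fin m)) :
    (⨂[k]^m V) ⊗[k] Y →ₗ[k] (⨂[k]^m V) ⊗[k] Y :=
  TensorProduct.map (PiTensorProduct.reindex k (fun _ => V) s).toLinearMap LinearMap.id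

theorem fx_tprod {m : ℕ} {Y : Type*} [AddCommGroup Y] [Module k Y] (s : Equiv.Perm (Fin m))
    (a : Fin m → V) (y : Y) :
    fx s (PiTensorProduct.tprod k a ⊗ₜ[k] y) = PiTensorProduct.tprod k (fun i => a (s.symm i)) ⊗ₜ y := by
  show (PiTensorProduct.reindex k (fun _ => V) s) (PiTensorProduct.tprod k a) ⊗ₜ y = _
  congr 1
  exact PiTensorProduct.reindex_tprod _ _

theorem fixes_of {m : ℕ} {Y : Type*} [AddCommGroup Y] [Module k Y] {t : (⨂[k]^m V) ⊗[k] Y →ₗ[k] k}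
    {s : Equiv.Perm (Fin m)} (h : t ∘ₗ fx s = t) : Fixes t s := by
  intro a y
  have h1 := LinearMap.congr_fun h (PiTensorProduct.tprod k (fun i => a (s i)) ⊗ₜ y)
  rw [LinearMap.comp_apply, fx_tprod] at h1
  rw [← h1]
  congr 3
  ext i
  rw [s.apply_symm_apply]

theorem LL_leftComm {m j : ℕ} {B : Type} {Y : Type*} [AddCommGroup Y] [Module k Y]
    (e : Fin j ⊕ (Fin j ⊕ B) ≃ Fin m) (s : Equiv.Perm (Fin m)) (hs : ∀ i, s (s i) = i)
    (hsw : ∀ (a b : Fin j → V) (c : B → V) (i : Fin m),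
      Sum.elim b (Sum.elim a c) (e.symm i) = Sum.elim a (Sum.elim b c) (e.symm (s i)))
    (x : (⨂[k]^j V) ⊗[k] ((⨂[k]^j V) ⊗[k] ((⨂[k] _ : B, V) ⊗[k] Y))) :
    LL k V Y e (TensorProduct.leftComm k (⨂[k]^j V) (⨂[k]^j V) ((⨂[k] _ : B, V) ⊗[k] Y) x) =
      fx s (LL k V Y e x) := by
  have key : (LL k V Y e).toLinearMap ∘ₗ
      (TensorProduct.leftComm k (⨂[k]^j V) (⨂[k]^j V) ((⨂[k] _ : B, V) ⊗[k] Y)).toLinearMap =
      fx s ∘ₗ (LL k V Y e).toLinearMap := by
    refine ext4 fun a b c y => ?_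
    show LL k V Y e (PiTensorProduct.tprod k b ⊗ₜ (PiTensorProduct.tprod k a ⊗ₜ
        (PiTensorProduct.tprod k c ⊗ₜ y))) = fx s (LL k V Y e (PiTensorProduct.tprod k a ⊗ₜ
        (PiTensorProduct.tprod k b ⊗ₜ (PiTensorProduct.tprod k c ⊗ₜ y))))
    rw [LL_tprod, LL_tprod, fx_tprod]
    congr 2
    ext i
    have : s.symm i = s i := by rw [Equiv.symm_apply_eq, hs]
    rw [this]
    exact hsw a b c i
  exact LinearMap.congr_fun key x

theorem two_sided [IsAlgClosed k] [CharP k 2] [PerfectRing k 2] [FiniteDimensional k V] [Finite G]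
    (hG : IsPGroup 2 G) {ρ : Representation k G V} {m : ℕ} {Y : Type*} [AddCommGroup Y] [Module k Y]
    {η : Representation k G Y} (t : (⨂[k]^m V) ⊗[k] Y →ₗ[k] k)
    (ht : ∀ g x, t (((tp ρ m).tprod η) g x) = t x) (w : (⨂[k]^m V) ⊗[k] Y)
    (hw : ∀ g, ((tp ρ m).tprod η) g w = w) (hne : t w ≠ 0) (s : Equiv.Perm (Fin m))
    (hf : Fixes t s) (hfw : fx s w = w) (hs : ∀ i, s (s i) = i) :
    HasTriv (tp ρ (Fintype.card (PA s))) := by
  obtain ⟨e₀⟩ : Nonempty (Fin (Fintype.card (PA s)) ≃ PA s) := ⟨(Fintype.equivFin _).symm⟩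
  generalize Fintype.card (PA s) = j at e₀
  let e : Fin j ⊕ (Fin j ⊕ PB s) ≃ Fin m := Equiv.ofBijective (pe s e₀) (pe_bij s hs e₀)
  have hsw : ∀ (a b : Fin j → V) (c : PB s → V) (i : Fin m),
      Sum.elim b (Sum.elim a c) (e.symm i) = Sum.elim a (Sum.elim b c) (e.symm (s i)) := by
    intro a b c i
    obtain ⟨q, rfl⟩ := e.surjective i
    rw [e.symm_apply_apply]
    rcases q with q | q | q
    · have h1 : s (e (Sum.inl q)) = e (Sum.inr (Sum.inl q)) := rfl
      rw [h1, e.symm_apply_apply]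
      rfl
    · have h1 : s (e (Sum.inr (Sum.inl q))) = e (Sum.inl q) := hs _
      rw [h1, e.symm_apply_apply]
      rfl
    · have h1 : s (e (Sum.inr (Sum.inr q))) = e (Sum.inr (Sum.inr q)) := q.2
      rw [h1, e.symm_apply_apply]
      rfl
  obtain ⟨b, hb, hbc, hbt, hbs⟩ := exists_b (ρ := tp ρ j) (η := (tpi ρ (PB s)).tprod η)
    (t ∘ₗ (LL k V Y e).toLinearMap) (fun g x => by
      show t (LL k V Y e _) = t (LL k V Y e _)
      rw [LL_eq, ht]) (fun x y z => by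
      have h1 : t ∘ₗ (LL k V Y e).toLinearMap = (t ∘ₗ (LL k V Y e).toLinearMap) ∘ₗ
          (TensorProduct.leftComm k (⨂[k]^j V) (⨂[k]^j V) ((⨂[k] _ : PB s, V) ⊗[k] Y)).toLinearMap := by
        refine ext4 fun a b c y => ?_
        show t (LL k V Y e (PiTensorProduct.tprod k a ⊗ₜ (PiTensorProduct.tprod k b ⊗ₜ
          (PiTensorProduct.tprod k c ⊗ₜ y)))) = t (LL k V Y e (PiTensorProduct.tprod k b ⊗ₜ
          (PiTensorProduct.tprod k a ⊗ₜ (PiTensorProduct.tprod k c ⊗ₜ y))))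
        rw [LL_tprod, LL_tprod, ← hf (fun i => Sum.elim a (Sum.elim b c) (e.symm i)) y]
        congr 3
        ext i
        exact (hsw a b c i).symm
      exact LinearMap.congr_fun h1 (x ⊗ₜ (y ⊗ₜ z))) ((LL k V Y e).symm w) (fun g => by
      apply (LL k V Y e).injective
      rw [LL_eq, LinearEquiv.apply_symm_apply, hw])
  have hwt : t (LL k V Y e ((LL k V Y e).symm w)) ≠ 0 := by
    rw [LinearEquiv.apply_symm_apply]
    exact hne
  refine core_gen hG _ _ (tp ρ j) b rfl (fun g x => ?_) (hbs ?_) hbc ?_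
  · have h2 := LinearMap.congr_fun (hb g) (((tp ρ j).tprod (tp ρ j)) g x)
    rw [cj_apply, LinearMap.comp_apply, LinearMap.comp_apply, inv_self] at h2
    exact h2.symm
  · apply (LL k V Y e).injective
    rw [LL_leftComm e s hs hsw, LinearEquiv.apply_symm_apply, hfw]
  · rw [hbt]
    exact hwt

end H22GQ
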