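import Mathlib

set_option autoImplicit false

open Module

namespace H22GQ

variable {k G V : Type*} [Field k] [Group G] [AddCommGroup V] [Module k V]

/-- indecomposable representations -/
def Indec (ρ : Representation k G V) : Prop :=
  Nontrivial V ∧ ∀ U W : Submodule k V, (∀ g, ∀ x ∈ U, ρ g x ∈ U) → (∀ g, ∀ x ∈ W, ρ g x ∈ W) →
    IsCompl U W → U = ⊥ ∨ W = ⊥

theorem exists_fixed [CharP k 2] [Finite G] (hG : IsPGroup 2 G) (ρ : Representation k G V) [Nontrivial V] :
    ∃ v : V, v ≠ 0 ∧ ∀ g, ρ g v = v := by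
  classical
  obtain ⟨x, hx⟩ := exists_ne (0 : V)
  have h2 : ∀ y : V, y + y = 0 := by
    intro y
    have : (2 : k) = 0 := by exact_mod_cast CharP.cast_eq_zero k 2
    rw [← two_smul k, this, zero_smul]
  let M : AddSubgroup V := AddSubgroup.closure (Set.range fun g => ρ g x)
  have hfin : Finite M := by
    have : AddGroup.FG M := by
      rw [AddGroup.fg_iff_addSubgroup_fg, AddSubgroup.fg_iff]
      exact ⟨_, rfl, Set.finite_range _⟩
    have ht : IsAddTorsion M := by
      intro y
      rw [isOfFinAddOrder_iff_nsmul_eq_zero]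
      refine ⟨2, by norm_num, ?_⟩
      rw [two_nsmul]
      exact Subtype.ext (h2 y.1)
    exact AddCommGroup.finite_of_fg_isAddTorsion M ht
  have hst : ∀ g, ∀ y ∈ M, ρ g y ∈ M := by
    intro g y hy
    induction hy using AddSubgroup.closure_induction with
    | mem y hy =>
      obtain ⟨h, rfl⟩ := hy
      refine AddSubgroup.subset_closure ⟨g * h, ?_⟩
      simp [map_mul]
    | zero => rw [map_zero]; exact M.zero_mem
    | add y z _ _ h3 h4 => rw [map_add]; exact M.add_mem h3 h4
    | neg y _ h3 => rw [map_neg]; exact M.neg_mem h3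
  let _ : MulAction G M :=
    { smul := fun g y => ⟨ρ g y.1, hst g _ y.2⟩
      one_smul := fun y => Subtype.ext (by show ρ 1 y.1 = y.1; rw [map_one]; rfl)
      mul_smul := fun g h y => Subtype.ext (by show ρ (g * h) y.1 = ρ g (ρ h y.1); rw [map_mul]; rfl) }
  have hne : (⟨x, AddSubgroup.subset_closure ⟨1, by simp⟩⟩ : M) ≠ 0 := fun h => hx (congrArg Subtype.val h)
  have hcard : 2 ∣ Nat.card M := by
    have h3 : addOrderOf (⟨x, AddSubgroup.subset_closure ⟨1, by simp⟩⟩ : M) = 2 := by
      refine addOrderOf_eq_prime ?_ hne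
      rw [two_nsmul]
      exact Subtype.ext (h2 x)
    rw [← h3]
    exact addOrderOf_dvd_natCard _
  have h0 : (0 : M) ∈ MulAction.fixedPoints G M := by
    intro g
    exact Subtype.ext (map_zero (ρ g))
  have : Fact (Nat.Prime 2) := ⟨Nat.prime_two⟩
  obtain ⟨b, hb, hb0⟩ := hG.exists_fixed_point_of_prime_dvd_card_of_fixed_point M hcard h0
  refine ⟨b.1, fun h => hb0 (Subtype.ext h.symm), fun g => ?_⟩
  exact congrArg Subtype.val (hb g)

section Fitting

variable (s : k ≃+* k) (L : V → V) (hadd : ∀ x y, L (x + y) = L x + L y)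
  (hsm : ∀ a x, L (a • x) = s a • L x)

include hadd in
theorem it_add (n : ℕ) (x y : V) : L^[n] (x + y) = L^[n] x + L^[n] y := by
  induction n generalizing x y with
  | zero => rfl
  | succ n ih => rw [Function.iterate_succ_apply, Function.iterate_succ_apply,
      Function.iterate_succ_apply, hadd, ih]

include hsm in
theorem it_smul (n : ℕ) (a : k) (x : V) : L^[n] (a • x) = (s^[n] a) • L^[n] x := by
  induction n generalizing a x with
  | zero => rfl
  | succ n ih => rw [Function.iterate_succ_apply, Function.iterate_succ_apply,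
      Function.iterate_succ_apply, hsm, ih]

include hadd in
theorem it_zero (n : ℕ) : L^[n] (0 : V) = 0 := by
  have h := it_add L hadd n 0 0
  rw [add_zero] at h
  exact left_eq_add.1 h

/-- kernel of the iterate -/
def Kn (n : ℕ) : Submodule k V where
  carrier := {x | L^[n] x = 0}
  add_mem' := by
    intro x y hx hy
    show L^[n] (x + y) = 0
    rw [it_add L hadd, show L^[n] x = 0 from hx, show L^[n] y = 0 from hy, add_zero]
  zero_mem' := it_zero L hadd n
  smul_mem' := by
    intro a x hx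
    show L^[n] (a • x) = 0
    rw [it_smul s L hsm, show L^[n] x = 0 from hx, smul_zero]

/-- range of the iterate -/
def Rn (n : ℕ) : Submodule k V where
  carrier := {x | ∃ y, L^[n] y = x}
  add_mem' := by
    rintro x y ⟨x', rfl⟩ ⟨y', rfl⟩
    exact ⟨x' + y', it_add L hadd n x' y'⟩
  zero_mem' := ⟨0, it_zero L hadd n⟩
  smul_mem' := by
    rintro a x ⟨x', rfl⟩
    obtain ⟨b, hb⟩ := (s.bijective.iterate n).2 a
    exact ⟨b • x', by rw [it_smul s L hsm, hb]⟩

theorem Kn_mono : Monotone (Kn s L hadd hsm) := by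
  refine monotone_nat_of_le_succ fun n x hx => ?_
  show L^[n + 1] x = 0
  rw [Function.iterate_succ_apply', show L^[n] x = 0 from hx]
  have := it_zero L hadd 1
  exact this

theorem Rn_anti : Antitone (Rn s L hadd hsm) := by
  refine antitone_nat_of_succ_le fun n x hx => ?_
  obtain ⟨y, hy⟩ := hx
  exact ⟨L y, by rw [← hy, Function.iterate_succ_apply]⟩

theorem exists_compl [FiniteDimensional k V] :
    ∃ n, 1 ≤ n ∧ IsCompl (Kn s L hadd hsm n) (Rn s L hadd hsm n) := by
  obtain ⟨n₁, h₁⟩ := monotone_stabilizes_iff_noetherian.2 (inferInstance : IsNoetherian k V)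
    ⟨Kn s L hadd hsm, Kn_mono s L hadd hsm⟩
  obtain ⟨n₂, h₂⟩ := monotone_stabilizes_iff_artinian.2 (inferInstance : IsArtinian k V)
    ⟨fun n => OrderDual.toDual (Rn s L hadd hsm n), fun a b h => Rn_anti s L hadd hsm h⟩
  obtain ⟨n, hn, hn₁, hn₂⟩ : ∃ n, 1 ≤ n ∧ n₁ ≤ n ∧ n₂ ≤ n :=
    ⟨n₁ + n₂ + 1, by omega, by omega, by omega⟩
  have e₁ : Kn s L hadd hsm n = Kn s L hadd hsm (n + n) := (h₁ n hn₁).symm.trans (h₁ (n + n) (by omega))
  have e₂ : Rn s L hadd hsm n = Rn s L hadd hsm (n + n) := by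
    have h3 := (h₂ n hn₂).symm.trans (h₂ (n + n) (by omega))
    exact OrderDual.toDual_inj.1 h3
  refine ⟨n, hn, ?_⟩
  rw [isCompl_iff, Submodule.disjoint_def, Submodule.codisjoint_iff_exists_add_eq]
  refine ⟨?_, ?_⟩
  · rintro x hx ⟨y, rfl⟩
    have hy : y ∈ Kn s L hadd hsm (n + n) := by
      show L^[n + n] y = 0
      rw [Function.iterate_add_apply]
      exact hx
    rw [← e₁] at hy
    exact hy
  · intro z
    have hz : L^[n] z ∈ Rn s L hadd hsm (n + n) := by
      rw [← e₂]
      exact ⟨z, rfl⟩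
    obtain ⟨y, hy⟩ := hz
    rw [Function.iterate_add_apply] at hy
    refine ⟨z - L^[n] y, L^[n] y, ?_, ⟨y, rfl⟩, sub_add_cancel _ _⟩
    show L^[n] (z - L^[n] y) = 0
    have h := it_add L hadd n (z - L^[n] y) (L^[n] y)
    rw [sub_add_cancel, hy] at h
    exact right_eq_add.1 h

include s hadd hsm in
theorem bij_of_not_nil [FiniteDimensional k V] {ρ : Representation k G V} (hind : Indec ρ)
    (heq : ∀ g x, L (ρ g x) = ρ g (L x)) (hnil : ∀ n, ∃ x, L^[n] x ≠ 0) : Function.Bijective L := by
  obtain ⟨n, hn, hc⟩ := exists_compl s L hadd hsm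
  have hit : ∀ (n : ℕ) g x, L^[n] (ρ g x) = ρ g (L^[n] x) := by
    intro n g
    induction n with
    | zero => intro x; rfl
    | succ n ih =>
      intro x
      rw [Function.iterate_succ_apply, Function.iterate_succ_apply, heq, ih]
  have i1 : ∀ g, ∀ x ∈ Kn s L hadd hsm n, ρ g x ∈ Kn s L hadd hsm n := by
    intro g x hx
    show L^[n] (ρ g x) = 0
    rw [hit, show L^[n] x = 0 from hx, map_zero]
  have i2 : ∀ g, ∀ x ∈ Rn s L hadd hsm n, ρ g x ∈ Rn s L hadd hsm n := by
    rintro g x ⟨y, rfl⟩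
    exact ⟨ρ g y, hit n g y⟩
  rcases hind.2 _ _ i1 i2 hc with h | h
  · have hR : Rn s L hadd hsm n = ⊤ := by
      rw [h] at hc
      exact eq_top_of_bot_isCompl hc
    obtain ⟨m, rfl⟩ : ∃ m, n = m + 1 := ⟨n - 1, by omega⟩
    constructor
    · intro x y hxy
      have h1 : L (x - y) = 0 := by
        have h2 := hadd (x - y) y
        rw [sub_add_cancel, hxy] at h2
        exact right_eq_add.1 h2
      have h2 : x - y ∈ Kn s L hadd hsm (m + 1) := by
        show L^[m + 1] (x - y) = 0
        rw [Function.iterate_succ_apply, h1]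
        exact it_zero L hadd m
      rw [h, Submodule.mem_bot] at h2
      exact sub_eq_zero.1 h2
    · intro x
      have hx : x ∈ Rn s L hadd hsm (m + 1) := by
        rw [hR]
        exact Submodule.mem_top
      obtain ⟨y, hy⟩ := hx
      exact ⟨L^[m] y, by rw [← hy, Function.iterate_succ_apply']⟩
  · exfalso
    obtain ⟨x, hx⟩ := hnil n
    apply hx
    have : L^[n] x ∈ Rn s L hadd hsm n := ⟨x, rfl⟩
    rw [h] at this
    exact this

end Fitting

end H22GQ
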