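import Pool.Agent.H22.GQ.Main

set_option autoImplicit false

open Module TensorProduct

namespace H22GQ

section PT

variable {k : Type*} [Field k] {E F : Type*} [AddCommGroup E] [Module k E] [AddCommGroup F] [Module k F]
  [FiniteDimensional k E] [FiniteDimensional k F]

/-- partial trace -/
noncomputable def PT : (E ⊗[k] F →ₗ[k] E ⊗[k] F) →ₗ[k] (E →ₗ[k] E) :=
  (TensorProduct.rid k (E →ₗ[k] E)).toLinearMap ∘ₗ
    TensorProduct.map LinearMap.id (LinearMap.trace k F) ∘ₗ (homTensorHomEquiv k E F E F).symm.toLinearMap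

theorem PT_map (a : E →ₗ[k] E) (b : F →ₗ[k] F) :
    PT (TensorProduct.map a b) = LinearMap.trace k F b • a := by
  have h : (homTensorHomEquiv k E F E F).symm (TensorProduct.map a b) = a ⊗ₜ b := by
    rw [LinearEquiv.symm_apply_eq, homTensorHomEquiv_apply, homTensorHomMap_apply]
  show (TensorProduct.rid k (E →ₗ[k] E)) (TensorProduct.map LinearMap.id (LinearMap.trace k F)
    ((homTensorHomEquiv k E F E F).symm (TensorProduct.map a b))) = _
  rw [h, TensorProduct.map_tmul, TensorProduct.rid_tmul]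
  rfl

theorem end_induction {P : (E ⊗[k] F →ₗ[k] E ⊗[k] F) → Prop} (h0 : P 0)
    (h1 : ∀ a b, P (TensorProduct.map a b)) (h2 : ∀ x y, P x → P y → P (x + y)) (x) : P x := by
  have key : ∀ s, P (homTensorHomEquiv k E F E F s) := by
    intro s
    induction s using TensorProduct.induction_on with
    | zero => rw [map_zero]; exact h0
    | tmul a b =>
      rw [homTensorHomEquiv_apply, homTensorHomMap_apply]
      exact h1 a b
    | add s s' h h' => rw [map_add]; exact h2 _ _ h h'
  have := key ((homTensorHomEquiv k E F E F).symm x)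
  rwa [LinearEquiv.apply_symm_apply] at this

theorem tr_PT (x : E ⊗[k] F →ₗ[k] E ⊗[k] F) : LinearMap.trace k E (PT x) = LinearMap.trace k _ x := by
  induction x using end_induction with
  | h0 => rw [map_zero, map_zero, map_zero]
  | h1 a b => rw [PT_map, map_smul, LinearMap.trace_tensorProduct', smul_eq_mul, mul_comm]
  | h2 x y hx hy => rw [map_add, map_add, map_add, hx, hy]

theorem PT_conj (a a' : E →ₗ[k] E) (b b' : F →ₗ[k] F) (hb : b' ∘ₗ b = LinearMap.id)
    (x : E ⊗[k] F →ₗ[k] E ⊗[k] F) :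
    PT (TensorProduct.map a b ∘ₗ x ∘ₗ TensorProduct.map a' b') = a ∘ₗ PT x ∘ₗ a' := by
  induction x using end_induction with
  | h0 => rw [LinearMap.zero_comp, LinearMap.comp_zero, map_zero, LinearMap.zero_comp, LinearMap.comp_zero]
  | h1 c d =>
    rw [← TensorProduct.map_comp, ← TensorProduct.map_comp, PT_map, PT_map, LinearMap.smul_comp,
      LinearMap.comp_smul]
    congr 1
    rw [LinearMap.trace_comp_comm', LinearMap.comp_assoc, hb, LinearMap.comp_id]
  | h2 x y hx hy => rw [LinearMap.add_comp, LinearMap.comp_add, map_add, hx, hy, map_add,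
      LinearMap.add_comp, LinearMap.comp_add]

/-- the linear form `u` on the first factor -/
noncomputable def lX (u : E →ₗ[k] k) : E ⊗[k] F →ₗ[k] F :=
  (TensorProduct.lid k F).toLinearMap ∘ₗ TensorProduct.map u LinearMap.id

theorem lX_tmul (u : E →ₗ[k] k) (x : E) (y : F) : lX u (x ⊗ₜ y) = u x • y := by
  show TensorProduct.lid k F (u x ⊗ₜ y) = _
  rw [TensorProduct.lid_tmul]

theorem u_PT (u : E →ₗ[k] k) (e : E) (x : E ⊗[k] F →ₗ[k] E ⊗[k] F) :
    u (PT x e) = LinearMap.trace k F (lX u ∘ₗ x ∘ₗ TensorProduct.mk k E F e) := by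
  induction x using end_induction with
  | h0 => rw [map_zero, LinearMap.zero_apply, map_zero, LinearMap.zero_comp, LinearMap.comp_zero, map_zero]
  | h1 a b =>
    rw [PT_map, LinearMap.smul_apply, map_smul]
    have h : lX u ∘ₗ TensorProduct.map a b ∘ₗ TensorProduct.mk k E F e = u (a e) • b := by
      ext y
      show lX u (a e ⊗ₜ b y) = _
      rw [lX_tmul]
      rfl
    rw [h, map_smul, smul_eq_mul, smul_eq_mul, mul_comm]
  | h2 x y hx hy => rw [map_add, LinearMap.add_apply, map_add, hx, hy, LinearMap.add_comp,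
      LinearMap.comp_add, map_add]

end PT

variable {k G : Type*} [Field k] [Group G]
variable {X Y : Type*} [AddCommGroup X] [Module k X] [AddCommGroup Y] [Module k Y]
  [FiniteDimensional k X] [FiniteDimensional k Y]

theorem cj_comp_inv (σ : Representation k G X) (g : G) : cj σ g⁻¹ ∘ₗ cj σ g = LinearMap.id := by
  refine LinearMap.ext fun x => ?_
  have h := cj_cj_inv σ g⁻¹ x
  rw [inv_inv] at h
  exact h

theorem IsInv.prod {σ : Representation k G X} {τ : Representation k G Y} (h₁ : IsInv σ) (h₂ : IsInv τ) :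
    IsInv (σ.tprod τ) := by
  intro Θ hΘ
  let H := homTensorHomEquiv k X Y X Y
  have hH : ∀ x y, H (x ⊗ₜ y) = TensorProduct.map x y := fun x y => by
    show homTensorHomEquiv k X Y X Y (x ⊗ₜ y) = _
    rw [homTensorHomEquiv_apply, homTensorHomMap_apply]
  have hHg : ∀ g s, H (TensorProduct.map (cj σ g) (cj τ g) s) = cj (σ.tprod τ) g (H s) := by
    intro g s
    induction s using TensorProduct.induction_on with
    | zero => simp
    | tmul x y => rw [TensorProduct.map_tmul, hH, hH, cj_map]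
    | add s s' h h' => rw [map_add, map_add, h, h', map_add, map_add]
  have hΘ' : ∀ g x, Θ (cj (σ.tprod τ) g x) = cj (σ.tprod τ) g (Θ x) := hΘ
  let Θ₁ : (X →ₗ[k] X) ⊗[k] (Y →ₗ[k] Y) →ₗ[k] (X →ₗ[k] X) ⊗[k] (Y →ₗ[k] Y) :=
    H.symm.toLinearMap ∘ₗ Θ ∘ₗ H.toLinearMap
  have hΘ₁ap : ∀ s, H (Θ₁ s) = Θ (H s) := fun s => H.apply_symm_apply _
  have hΘ₁ : ∀ g s, Θ₁ (TensorProduct.map (cj σ g) (cj τ g) s) =
      TensorProduct.map (cj σ g) (cj τ g) (Θ₁ s) := fun g s => by
    apply H.injective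
    rw [hΘ₁ap, hHg, hHg, hΘ', hΘ₁ap]
  have t1 : LinearMap.trace k _ Θ₁ = LinearMap.trace k _ Θ := by
    have h : Θ₁ = H.symm.conj Θ := by
      ext1
      rfl
    rw [h]
    exact LinearMap.trace_conj' Θ H.symm
  have hid : H (LinearMap.id ⊗ₜ LinearMap.id) = LinearMap.id := by rw [hH, TensorProduct.map_id]
  -- first factor
  have a1 := h₁ (PT Θ₁) (fun g x => by
    have h3 : TensorProduct.map (cj σ g) (cj τ g) ∘ₗ Θ₁ ∘ₗ TensorProduct.map (cj σ g⁻¹) (cj τ g⁻¹) = Θ₁ := by
      refine LinearMap.ext fun s => ?_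
      show TensorProduct.map (cj σ g) (cj τ g) (Θ₁ (TensorProduct.map (cj σ g⁻¹) (cj τ g⁻¹) s)) = _
      rw [← hΘ₁]
      congr 1
      have h4 : TensorProduct.map (cj σ g) (cj τ g) ∘ₗ TensorProduct.map (cj σ g⁻¹) (cj τ g⁻¹) =
          LinearMap.id := by
        rw [← TensorProduct.map_comp]
        have e1 := cj_comp_inv σ g⁻¹
        have e2 := cj_comp_inv τ g⁻¹
        rw [inv_inv] at e1 e2
        rw [e1, e2, TensorProduct.map_id]
      exact LinearMap.congr_fun h4 s
    have h5 := PT_conj (cj σ g) (cj σ g⁻¹) (cj τ g) (cj τ g⁻¹) (cj_comp_inv τ g) Θ₁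
    rw [h3] at h5
    have h6 := LinearMap.congr_fun h5 (cj σ g x)
    have h7 : cj σ g⁻¹ (cj σ g x) = x := LinearMap.congr_fun (cj_comp_inv σ g) x
    rw [LinearMap.comp_apply, LinearMap.comp_apply, h7] at h6
    exact h6)
  rw [tr_PT, t1] at a1
  have a2 := u_PT (LinearMap.trace k X) LinearMap.id Θ₁
  let Θ₂ : (Y →ₗ[k] Y) →ₗ[k] (Y →ₗ[k] Y) :=
    lX (LinearMap.trace k X) ∘ₗ Θ₁ ∘ₗ TensorProduct.mk k (X →ₗ[k] X) (Y →ₗ[k] Y) LinearMap.id
  have hl : ∀ g s, lX (LinearMap.trace k X) (TensorProduct.map (cj σ g) (cj τ g) s) =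
      cj τ g (lX (LinearMap.trace k X) s) := by
    intro g s
    induction s using TensorProduct.induction_on with
    | zero => simp
    | tmul x y => rw [TensorProduct.map_tmul, lX_tmul, lX_tmul, tr_cj, map_smul]
    | add s s' h h' => rw [map_add, map_add, h, h', map_add, map_add]
  have a3 := h₂ Θ₂ (fun g y => by
    show lX (LinearMap.trace k X) (Θ₁ (LinearMap.id ⊗ₜ cj τ g y)) =
      cj τ g (lX (LinearMap.trace k X) (Θ₁ (LinearMap.id ⊗ₜ y)))
    rw [← hl, ← hΘ₁, TensorProduct.map_tmul]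
    have : cj σ g LinearMap.id = LinearMap.id := cj_one σ g
    rw [this])
  rw [a1, a2]
  refine a3.trans ?_
  have a4 : ∀ s, LinearMap.trace k Y (lX (LinearMap.trace k X) s) = LinearMap.trace k _ (H s) := by
    intro s
    induction s using TensorProduct.induction_on with
    | zero => simp
    | tmul x y => rw [lX_tmul, map_smul, hH, LinearMap.trace_tensorProduct', smul_eq_mul]
    | add s s' h h' => rw [map_add, map_add, h, h', map_add, map_add]
  show LinearMap.trace k Y (lX (LinearMap.trace k X) (Θ₁ (LinearMap.id ⊗ₜ LinearMap.id))) = _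
  rw [a4, hΘ₁ap, hid]

theorem IsInv.equiv {σ : Representation k G X} {τ : Representation k G Y} (h : IsInv σ) (e : X ≃ₗ[k] Y)
    (he : ∀ g x, e (σ g x) = τ g (e x)) : IsInv τ := by
  intro Θ hΘ
  let C : (X →ₗ[k] X) ≃ₗ[k] (Y →ₗ[k] Y) := e.conj
  have hC : ∀ x s, C x s = e (x (e.symm s)) := fun x s => rfl
  have hEs : ∀ g s, e.symm (τ g s) = σ g (e.symm s) := fun g s => by
    apply e.injective
    rw [he, e.apply_symm_apply, e.apply_symm_apply]
  have hCg : ∀ g x, C (cj σ g x) = cj τ g (C x) := by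
    intro g x
    refine LinearMap.ext fun s => ?_
    show e (σ g (x (σ g⁻¹ (e.symm s)))) = τ g (e (x (e.symm (τ g⁻¹ s))))
    rw [he, hEs]
  have h1 := h (C.symm.conj Θ) (fun g x => by
    apply C.injective
    show C (C.symm (Θ (C (cj σ g x)))) = C (cj σ g (C.symm (Θ (C x))))
    rw [C.apply_symm_apply, hCg, hCg, C.apply_symm_apply]
    exact hΘ g _)
  rw [LinearMap.trace_conj'] at h1
  rw [h1]
  show LinearMap.trace k X (C.symm (Θ (C LinearMap.id))) = _
  have h2 : C LinearMap.id = LinearMap.id := by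
    refine LinearMap.ext fun s => ?_
    rw [hC]
    exact e.apply_symm_apply s
  rw [h2]
  exact LinearMap.trace_conj' (Θ LinearMap.id) e.symm

theorem IsInv.triv : IsInv (Representation.trivial k G k) := by
  intro Θ _
  have h1 : ∀ x : k →ₗ[k] k, x = x 1 • LinearMap.id := fun x => by
    ext
    simp
  have h2 : Θ = (LinearMap.applyₗ (1 : k)).smulRight (Θ LinearMap.id) := by
    refine LinearMap.ext fun x => ?_
    conv_lhs => rw [h1 x]
    rw [map_smul]
    rfl
  have h3 : LinearMap.trace k k (Θ LinearMap.id) = (Θ LinearMap.id) 1 := by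
    conv_lhs => rw [h1 (Θ LinearMap.id)]
    rw [map_smul, LinearMap.trace_id, Module.finrank_self, Nat.cast_one, smul_eq_mul, mul_one]
  rw [h3]
  conv_lhs => rw [h2]
  rw [LinearMap.trace_smulRight]
  rfl

end H22GQ
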