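import Pool.Agent.H22.GQ.Tr

set_option autoImplicit false

open Module TensorProduct

namespace H22GQ

variable {k G V : Type*} [Field k] [Group G] [AddCommGroup V] [Module k V]

/-- the representation of `G` on the endomorphisms -/
def cjR (ρ : Representation k G V) : Representation k G (V →ₗ[k] V) where
  toFun := cj ρ
  map_one' := by
    ext x v
    simp [cj_apply]
  map_mul' g h := by
    ext x v
    simp [cj_apply]

theorem cjR_apply (ρ : Representation k G V) (g : G) : cjR ρ g = cj ρ g := rfl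

/-- invariant linear forms on the endomorphisms -/
def InvF (ρ : Representation k G V) (l : (V →ₗ[k] V) →ₗ[k] k) : Prop := ∀ g x, l (cj ρ g x) = l x

theorem one_case [FiniteDimensional k V] {ρ : Representation k G V} (hI : IsInv ρ)
    {μ : (V →ₗ[k] V) →ₗ[k] k} (hμ : InvF ρ μ) {y : V →ₗ[k] V} (hy : ∀ g, cj ρ g y = y) :
    μ y = LinearMap.trace k V y * μ LinearMap.id := by
  have h := stepA hI (Representation.trivial k G k) (μ ∘ₗ (TensorProduct.rid k (V →ₗ[k] V)).toLinearMap)
    (fun g s => by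
      induction s using TensorProduct.induction_on with
      | zero => simp
      | tmul x a =>
        show μ (TensorProduct.rid k (V →ₗ[k] V) (cj ρ g x ⊗ₜ a)) = μ (TensorProduct.rid k (V →ₗ[k] V) (x ⊗ₜ a))
        rw [TensorProduct.rid_tmul, TensorProduct.rid_tmul, map_smul, map_smul, hμ]
      | add s s' h h' => rw [map_add, map_add, h, h', map_add]) (y ⊗ₜ[k] 1) (fun g => by
      rw [TensorProduct.map_tmul, hy]
      rfl)
  rw [Psi_tmul, LinearMap.id_comp] at h
  have e1 : (μ ∘ₗ (TensorProduct.rid k (V →ₗ[k] V)).toLinearMap) (y ⊗ₜ[k] 1) = μ y := by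
    show μ (TensorProduct.rid k (V →ₗ[k] V) (y ⊗ₜ 1)) = _
    rw [TensorProduct.rid_tmul, one_smul]
  have e2 : (μ ∘ₗ (TensorProduct.rid k (V →ₗ[k] V)).toLinearMap)
      (LinearMap.id ⊗ₜ[k] (LinearMap.trace k V y • (1 : k))) = LinearMap.trace k V y * μ LinearMap.id := by
    show μ (TensorProduct.rid k (V →ₗ[k] V) (LinearMap.id ⊗ₜ (LinearMap.trace k V y • (1 : k)))) = _
    rw [TensorProduct.rid_tmul, map_smul, smul_eq_mul, smul_eq_mul, mul_one]
  rw [e1, e2] at h
  exact h

theorem tprod_ap (ρ : Representation k G V) (g : G) :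
    (ρ.tprod ρ) g = TensorProduct.map (ρ g) (ρ g) := rfl

theorem cj_map {W : Type*} [AddCommGroup W] [Module k W] (ρ : Representation k G V)
    (σ : Representation k G W) (g : G) (x : V →ₗ[k] V) (y : W →ₗ[k] W) :
    TensorProduct.map (cj ρ g x) (cj σ g y) = cj (ρ.tprod σ) g (TensorProduct.map x y) := by
  ext v w
  simp [cj_apply]

theorem m2 [CharP k 2] [FiniteDimensional k V] (hodd : Odd (finrank k V)) {ρ : Representation k G V}
    (hI : IsInv ρ) {f : V ⊗[k] V →ₗ[k] V ⊗[k] V} (hf : ∀ g, cj (ρ.tprod ρ) g f = f)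
    {l : (V ⊗[k] V →ₗ[k] V ⊗[k] V) →ₗ[k] k} (hl : InvF (ρ.tprod ρ) l) :
    l f = LinearMap.trace k _ f * l LinearMap.id := by
  let H := homTensorHomEquiv k V V V V
  have hH : ∀ x y : V →ₗ[k] V, H (x ⊗ₜ y) = TensorProduct.map x y := fun x y => by
    show homTensorHomEquiv k V V V V (x ⊗ₜ y) = _
    rw [homTensorHomEquiv_apply, homTensorHomMap_apply]
  have hHg : ∀ g s, H (TensorProduct.map (cj ρ g) (cjR ρ g) s) = cj (ρ.tprod ρ) g (H s) := by
    intro g s
    induction s using TensorProduct.induction_on with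
    | zero => simp
    | tmul x y => rw [TensorProduct.map_tmul, hH, hH, cjR_apply, cj_map]
    | add s s' h h' => rw [map_add, map_add, h, h', map_add, map_add]
  let F := H.symm f
  have hHF : H F = f := H.apply_symm_apply f
  have hF : ∀ g, TensorProduct.map (cj ρ g) (cjR ρ g) F = F := fun g => by
    apply H.injective
    rw [hHg, hHF, hf]
  let y := Psi F LinearMap.id
  have hy : ∀ g, cj ρ g y = y := fun g => by
    have h := Psi_cj ρ (cjR ρ) g F LinearMap.id
    rw [hF] at h
    have h1 : cj ρ g LinearMap.id = LinearMap.id := cj_one ρ g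
    rw [h1] at h
    exact h.symm
  have hid : H (LinearMap.id ⊗ₜ LinearMap.id) = LinearMap.id := by rw [hH, TensorProduct.map_id]
  have key : ∀ l : (V ⊗[k] V →ₗ[k] V ⊗[k] V) →ₗ[k] k, InvF (ρ.tprod ρ) l →
      l f = LinearMap.trace k V y * l LinearMap.id := by
    intro l hl
    have h1 := stepA hI (cjR ρ) (l ∘ₗ H.toLinearMap) (fun g s => by
      show l (H _) = l (H _)
      rw [hHg, hl]) F hF
    have h2 : l f = l (H (LinearMap.id ⊗ₜ y)) := by
      rw [← hHF]
      exact h1
    have h3 := one_case hI (μ := (l ∘ₗ H.toLinearMap) ∘ₗ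
        (TensorProduct.mk k (V →ₗ[k] V) (V →ₗ[k] V) LinearMap.id)) (fun g x => by
      show l (H (LinearMap.id ⊗ₜ cj ρ g x)) = l (H (LinearMap.id ⊗ₜ x))
      have h4 := hHg g (LinearMap.id ⊗ₜ x)
      have h5 : cj ρ g LinearMap.id = LinearMap.id := cj_one ρ g
      rw [TensorProduct.map_tmul, cjR_apply, h5] at h4
      rw [h4, hl]) hy
    rw [h2]
    have h6 : l LinearMap.id = l (H (LinearMap.id ⊗ₜ LinearMap.id)) := by rw [hid]
    rw [h6]
    exact h3
  have htr : InvF (ρ.tprod ρ) (LinearMap.trace k (V ⊗[k] V)) := fun g x => tr_cj _ g x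
  have h1 := key _ htr
  have h2 : LinearMap.trace k (V ⊗[k] V) LinearMap.id = 1 := by
    rw [LinearMap.trace_id, Module.finrank_tensorProduct]
    obtain ⟨m, hm⟩ := hodd
    have h2 : (2 : k) = 0 := by exact_mod_cast CharP.cast_eq_zero k 2
    rw [hm]
    push_cast
    rw [h2]
    ring
  rw [h2, mul_one] at h1
  rw [key l hl, h1]

end H22GQ
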