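import Pool.Agent.H22.GQ.Sym
import Pool.Agent.H22.GQ.Core

set_option autoImplicit false

open Module TensorProduct

namespace H22GQ

variable {k G V : Type*} [Field k] [Group G] [AddCommGroup V] [Module k V]

/-- the tensor powers of a representation -/
noncomputable def tp (ρ : Representation k G V) (n : ℕ) : Representation k G (⨂[k]^n V) :=
  PiTensorProduct.mapMonoidHom.comp (Pi.monoidHom fun _ => ρ)

theorem tp_tprod (ρ : Representation k G V) (n : ℕ) (g : G) (a : Fin n → V) :
    tp ρ n g (PiTensorProduct.tprod k a) = PiTensorProduct.tprod k fun i => ρ g (a i) :=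
  PiTensorProduct.map_tprod _ _

theorem symS_tp {ρ : Representation k G V} (h : SymS ρ) (n : ℕ) : SymS (tp ρ n) := by
  induction n with
  | zero =>
    refine SymS.triv.equiv (PiTensorProduct.isEmptyEquiv (Fin 0)).symm fun g y => ?_
    apply (PiTensorProduct.isEmptyEquiv (R := k) (s := fun _ : Fin 0 => V) (Fin 0)).injective
    rw [LinearEquiv.apply_symm_apply]
    have h1 : ∀ s : ⨂[k]^0 V, tp ρ 0 g s = s := by
      intro s
      induction s using PiTensorProduct.induction_on with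
      | smul_tprod r f =>
        rw [map_smul, tp_tprod]
        congr 2
        ext i
        exact i.elim0
      | add x y hx hy => rw [map_add, hx, hy]
    rw [h1, LinearEquiv.apply_symm_apply]
    rfl
  | succ n ih =>
    have h1 : SymS (tp ρ 1) := by
      refine h.equiv (PiTensorProduct.subsingletonEquiv (R := k) (s := fun _ : Fin 1 => V) 0).symm
        fun g y => ?_
      apply (PiTensorProduct.subsingletonEquiv (R := k) (s := fun _ : Fin 1 => V) 0).injective
      rw [LinearEquiv.apply_symm_apply]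
      have h2 : ∀ s : ⨂[k]^1 V, PiTensorProduct.subsingletonEquiv (R := k) (s := fun _ : Fin 1 => V) 0
          (tp ρ 1 g s) = ρ g (PiTensorProduct.subsingletonEquiv (R := k) (s := fun _ : Fin 1 => V) 0 s) := by
        intro s
        induction s using PiTensorProduct.induction_on with
        | smul_tprod r f =>
          rw [map_smul, map_smul, tp_tprod, PiTensorProduct.subsingletonEquiv_apply_tprod, map_smul,
            PiTensorProduct.subsingletonEquiv_apply_tprod, map_smul]
        | add x y hx hy => rw [map_add, map_add, hx, hy, map_add, map_add]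
      rw [h2, LinearEquiv.apply_symm_apply]
    refine (ih.prod h1).equiv (TensorPower.mulEquiv (R := k) (M := V) (n := n) (m := 1)) fun g y => ?_
    have key : (TensorPower.mulEquiv (R := k) (M := V) (n := n) (m := 1)).toLinearMap ∘ₗ
        (TensorProduct.map (tp ρ n g) (tp ρ 1 g)) =
        tp ρ (n + 1) g ∘ₗ (TensorPower.mulEquiv (R := k) (M := V) (n := n) (m := 1)).toLinearMap := by
      refine TensorProduct.ext ?_
      refine PiTensorProduct.ext ?_
      refine MultilinearMap.ext fun a => ?_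
      refine PiTensorProduct.ext ?_
      refine MultilinearMap.ext fun b => ?_
      show TensorPower.mulEquiv (tp ρ n g (PiTensorProduct.tprod k a) ⊗ₜ tp ρ 1 g (PiTensorProduct.tprod k b)) =
        tp ρ (n + 1) g (TensorPower.mulEquiv (PiTensorProduct.tprod k a ⊗ₜ PiTensorProduct.tprod k b))
      rw [tp_tprod, tp_tprod]
      have e1 := TensorPower.tprod_mul_tprod k a b
      have e2 := TensorPower.tprod_mul_tprod k (fun i => ρ g (a i)) (fun i => ρ g (b i))
      rw [TensorPower.gMul_def] at e1 e2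
      rw [e1, e2, tp_tprod]
      congr 1
      ext i
      refine Fin.addCases (fun i => ?_) (fun i => ?_) i
      · rw [Fin.append_left, Fin.append_left]
      · rw [Fin.append_right, Fin.append_right]
    exact LinearMap.congr_fun key y

/-- the product of two values of a linear form -/
noncomputable def tt {X : Type*} [AddCommGroup X] [Module k X] (t : X →ₗ[k] k) : X ⊗[k] X →ₗ[k] k :=
  LinearMap.mul' k k ∘ₗ TensorProduct.map t t

theorem tt_tmul {X : Type*} [AddCommGroup X] [Module k X] (t : X →ₗ[k] k) (x y : X) :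
    tt t (x ⊗ₜ y) = t x * t y := rfl

theorem tt_inv {X : Type*} [AddCommGroup X] [Module k X] (t : X →ₗ[k] k) (f : X →ₗ[k] X)
    (hf : ∀ x, t (f x) = t x) (s : X ⊗[k] X) : tt t (TensorProduct.map f f s) = tt t s := by
  have : tt t ∘ₗ TensorProduct.map f f = tt t := by
    ext x y
    show t (f x) * t (f y) = t x * t y
    rw [hf, hf]
  exact LinearMap.congr_fun this s

theorem exists_b [FiniteDimensional k V] {Y : Type*} [AddCommGroup Y] [Module k Y]
    {ρ : Representation k G V} {η : Representation k G Y} (t : V ⊗[k] (V ⊗[k] Y) →ₗ[k] k)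
    (ht : ∀ g s, t ((ρ.tprod (ρ.tprod η)) g s) = t s)
    (hsym : ∀ x y z, t (x ⊗ₜ (y ⊗ₜ z)) = t (y ⊗ₜ (x ⊗ₜ z))) (w : V ⊗[k] (V ⊗[k] Y))
    (hw : ∀ g, (ρ.tprod (ρ.tprod η)) g w = w) :
    ∃ b : V ⊗[k] V →ₗ[k] V ⊗[k] V, (∀ g, cj (ρ.tprod ρ) g b = b) ∧
      (∀ s, b (TensorProduct.comm k V V s) = b s) ∧ LinearMap.trace k _ b = t w ∧
      (TensorProduct.leftComm k V V Y w = w → ∀ s, TensorProduct.comm k V V (b s) = b s) := by
  let A := TensorProduct.assoc k V V Y
  let w' := A.symm w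
  have hA : ∀ g s, A (TensorProduct.map ((ρ.tprod ρ) g) (η g) s) = (ρ.tprod (ρ.tprod η)) g (A s) := by
    intro g s
    have : A.toLinearMap ∘ₗ (TensorProduct.map ((ρ.tprod ρ) g) (η g)) =
        (ρ.tprod (ρ.tprod η)) g ∘ₗ A.toLinearMap := by
      ext x y z
      rfl
    exact LinearMap.congr_fun this s
  have hw' : ∀ g, TensorProduct.map ((ρ.tprod ρ) g) (η g) w' = w' := fun g => by
    apply A.injective
    rw [hA, A.apply_symm_apply, hw]
  let l₁ : (V ⊗[k] V →ₗ[k] V ⊗[k] V) →ₗ[k] k :=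
    { toFun := fun x => t (A (x.rTensor Y w'))
      map_add' := fun x x' => by rw [LinearMap.rTensor_add, LinearMap.add_apply, map_add, map_add]
      map_smul' := fun a x => by
        rw [LinearMap.rTensor_smul, LinearMap.smul_apply, map_smul, map_smul, RingHom.id_apply] }
  have l₁ap : ∀ x, l₁ x = t (A (x.rTensor Y w')) := fun x => rfl
  have l₁inv : InvF (ρ.tprod ρ) l₁ := by
    intro g x
    rw [l₁ap, l₁ap]
    have e1 : (cj (ρ.tprod ρ) g x).rTensor Y w' = TensorProduct.map ((ρ.tprod ρ) g) (η g)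
        (x.rTensor Y (TensorProduct.map ((ρ.tprod ρ) g⁻¹) (η g⁻¹) w')) := by
      have : (cj (ρ.tprod ρ) g x).rTensor Y = TensorProduct.map ((ρ.tprod ρ) g) (η g) ∘ₗ
          x.rTensor Y ∘ₗ TensorProduct.map ((ρ.tprod ρ) g⁻¹) (η g⁻¹) := by
        unfold LinearMap.rTensor
        rw [← TensorProduct.map_comp, ← TensorProduct.map_comp, cj_apply]
        congr 1
        ext y
        simp
      rw [this]
      rfl
    rw [e1, hw', hA, ht]
  refine ⟨Cmap l₁, fun g => Cmap_cj _ l₁inv g, fun s => ?_, ?_, fun hsw s => ?_⟩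
  · have h : Cmap l₁ ∘ₗ (TensorProduct.comm k V V).toLinearMap = Cmap l₁ := by
      refine tr_uniq fun x => ?_
      rw [← LinearMap.comp_assoc, LinearMap.trace_comp_comm', ← LinearMap.comp_assoc, Cmap_spec,
        Cmap_spec, l₁ap, l₁ap]
      have e1 : ∀ s : (V ⊗[k] V) ⊗[k] Y,
          t (A ((TensorProduct.comm k V V).toLinearMap.rTensor Y s)) = t (A s) := by
        intro s
        have : (t ∘ₗ A.toLinearMap) ∘ₗ ((TensorProduct.comm k V V).toLinearMap.rTensor Y) =
            t ∘ₗ A.toLinearMap := by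
          ext x y z
          exact hsym y x z
        exact LinearMap.congr_fun this s
      rw [LinearMap.rTensor_comp, LinearMap.comp_apply, e1]
    exact LinearMap.congr_fun h s
  · have h := Cmap_spec l₁ LinearMap.id
    rw [LinearMap.id_comp, l₁ap, LinearMap.rTensor_id] at h
    rw [h]
    show t (A (A.symm w)) = t w
    rw [A.apply_symm_apply]
  · have h : (TensorProduct.comm k V V).toLinearMap ∘ₗ Cmap l₁ = Cmap l₁ := by
      refine tr_uniq fun x => ?_
      rw [← LinearMap.comp_assoc, Cmap_spec, Cmap_spec, l₁ap, l₁ap]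
      have e1 : ∀ s : (V ⊗[k] V) ⊗[k] Y, A ((TensorProduct.comm k V V).toLinearMap.rTensor Y s) =
          TensorProduct.leftComm k V V Y (A s) := by
        intro s
        have : A.toLinearMap ∘ₗ ((TensorProduct.comm k V V).toLinearMap.rTensor Y) =
            (TensorProduct.leftComm k V V Y).toLinearMap ∘ₗ A.toLinearMap := by
          ext x y z
          rfl
        exact LinearMap.congr_fun this s
      have e2 : (TensorProduct.comm k V V).toLinearMap.rTensor Y w' = w' := by
        apply A.injective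
        rw [e1, A.apply_symm_apply, hsw]
      rw [LinearMap.rTensor_comp, LinearMap.comp_apply, e2]
    exact LinearMap.congr_fun h s

theorem exists_a [FiniteDimensional k V] {Z : Type*} [AddCommGroup Z] [Module k Z]
    {ρ : Representation k G V} {ζ : Representation k G Z} (hζ : SymS ζ) (t : V ⊗[k] Z →ₗ[k] k)
    (ht : ∀ g s, t ((ρ.tprod ζ) g s) = t s) (w : V ⊗[k] Z) (hw : ∀ g, (ρ.tprod ζ) g w = w) :
    ∃ a : V ⊗[k] V →ₗ[k] V ⊗[k] V, (∀ g, cj (ρ.tprod ρ) g a = a) ∧
      (∀ s, TensorProduct.comm k V V (a s) = a s) ∧ LinearMap.trace k _ a = t w * t w := by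
  obtain ⟨bz, e₁, c₁, l₁⟩ := hζ
  have hinv : ∀ g (x : V ⊗[k] V →ₗ[k] V ⊗[k] V) (y : Z ⊗[k] Z →ₗ[k] Z ⊗[k] Z),
      tt t (Q (cj (ρ.tprod ρ) g x) (cj (ζ.tprod ζ) g y) (w ⊗ₜ w)) = tt t (Q x y (w ⊗ₜ w)) := by
    intro g x y
    rw [Q_cj]
    show tt t (TensorProduct.map ((ρ.tprod ζ) g) ((ρ.tprod ζ) g) (Q x y
      ((ρ.tprod ζ) g⁻¹ w ⊗ₜ (ρ.tprod ζ) g⁻¹ w))) = _
    rw [tt_inv t _ (ht g), hw]
  let l₂ : (V ⊗[k] V →ₗ[k] V ⊗[k] V) →ₗ[k] k :=
    { toFun := fun x => tt t (Q x bz (w ⊗ₜ w))
      map_add' := fun x x' => by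
        rw [map_add, LinearMap.add_apply, LinearMap.add_apply, map_add]
      map_smul' := fun a x => by
        rw [map_smul, LinearMap.smul_apply, LinearMap.smul_apply, map_smul, RingHom.id_apply] }
  have l₂ap : ∀ x, l₂ x = tt t (Q x bz (w ⊗ₜ w)) := fun x => rfl
  have l₂inv : InvF (ρ.tprod ρ) l₂ := fun g x => by
    rw [l₂ap, l₂ap]
    have h := hinv g x bz
    rw [e₁] at h
    exact h
  refine ⟨Cmap l₂, fun g => Cmap_cj _ l₂inv g, fun s => ?_, ?_⟩
  · have h : (TensorProduct.comm k V V).toLinearMap ∘ₗ Cmap l₂ = Cmap l₂ := by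
      refine tr_uniq fun x => ?_
      rw [← LinearMap.comp_assoc, Cmap_spec, Cmap_spec, l₂ap, l₂ap]
      have e2 : Q (x ∘ₗ (TensorProduct.comm k V V).toLinearMap) bz (w ⊗ₜ w) = Q x bz (w ⊗ₜ w) := by
        apply (tensorTensorTensorComm k V Z V Z).injective
        have h3 : (TensorProduct.comm k (V ⊗[k] Z) (V ⊗[k] Z)) (w ⊗ₜ w) = w ⊗ₜ w := rfl
        have h4 := tt_comm (k := k) (w ⊗ₜ[k] w)
        rw [h3] at h4
        rw [Q_apply, Q_apply]
        conv_rhs => rw [h4]
        have h5 : TensorProduct.map x bz ∘ₗ TensorProduct.map (TensorProduct.comm k V V).toLinearMap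
            (TensorProduct.comm k Z Z).toLinearMap =
            TensorProduct.map (x ∘ₗ (TensorProduct.comm k V V).toLinearMap) bz := by
          rw [← TensorProduct.map_comp]
          congr 1
          exact LinearMap.ext c₁
        exact (LinearMap.congr_fun h5 _).symm
      rw [e2]
    exact LinearMap.congr_fun h s
  · have h := Cmap_spec l₂ LinearMap.id
    rw [LinearMap.id_comp, l₂ap] at h
    rw [h]
    let l₃ : (Z ⊗[k] Z →ₗ[k] Z ⊗[k] Z) →ₗ[k] k :=
      { toFun := fun y => tt t (Q LinearMap.id y (w ⊗ₜ w))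
        map_add' := fun x x' => by rw [map_add, LinearMap.add_apply, map_add]
        map_smul' := fun a x => by rw [map_smul, LinearMap.smul_apply, map_smul, RingHom.id_apply] }
    have h3 : l₃ bz = l₃ LinearMap.id := l₁ l₃ (fun g y => by
      have h4 := hinv g LinearMap.id y
      have h5 : cj (ρ.tprod ρ) g LinearMap.id = LinearMap.id := cj_one _ g
      rw [h5] at h4
      exact h4)
    have h4 : l₃ bz = tt t (Q LinearMap.id bz (w ⊗ₜ w)) := rfl
    have h5 : l₃ LinearMap.id = tt t (Q LinearMap.id LinearMap.id (w ⊗ₜ w)) := rfl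
    rw [← h4, h3, h5, Q_id, LinearMap.id_apply, tt_tmul]

theorem forms [CharP k 2] [PerfectRing k 2] [FiniteDimensional k V] [Finite G] (hG : IsPGroup 2 G)
    {ρ : Representation k G V} (hind : Indec ρ) (hodd : Odd (finrank k V)) (hI : IsInv ρ)
    (hdim : finrank k V ≠ 1) (n : ℕ) (t : V ⊗[k] (V ⊗[k] ⨂[k]^n V) →ₗ[k] k)
    (ht : ∀ g s, t ((ρ.tprod (ρ.tprod (tp ρ n))) g s) = t s)
    (hsym : ∀ x y z, t (x ⊗ₜ (y ⊗ₜ z)) = t (y ⊗ₜ (x ⊗ₜ z))) (w : V ⊗[k] (V ⊗[k] ⨂[k]^n V))
    (hw : ∀ g, (ρ.tprod (ρ.tprod (tp ρ n))) g w = w) : t w = 0 := by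
  by_contra hne
  obtain ⟨b, hb, hbc, hbt, -⟩ := exists_b t ht hsym w hw
  have hS : SymS ρ := by
    refine ⟨(t w)⁻¹ • b, fun g => by rw [map_smul, hb], fun s => ?_, fun l hl => ?_⟩
    · rw [LinearMap.smul_apply, LinearMap.smul_apply, hbc]
    · rw [map_smul, m2 hodd hI hb hl, hbt, smul_eq_mul, ← mul_assoc, inv_mul_cancel₀ hne, one_mul]
  obtain ⟨a, ha, hac, hat⟩ := exists_a (hS.prod (symS_tp hS n)) t ht w hw
  have hab : LinearMap.trace k _ (a ∘ₗ b) ≠ 0 := by
    have h := m2 hodd hI ha (l := T2 b) (fun g x => by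
      rw [T2_apply, T2_apply]
      have h1 : cj (ρ.tprod ρ) g x ∘ₗ b = cj (ρ.tprod ρ) g (x ∘ₗ b) := by rw [cj_comp, hb]
      rw [h1, tr_cj])
    rw [T2_apply, T2_apply, LinearMap.id_comp, hat, hbt] at h
    rw [h]
    exact mul_ne_zero (mul_ne_zero hne hne) hne
  refine hdim (core hG hind hodd (a ∘ₗ b) (fun g s => ?_) (fun s => hac _) (fun s => ?_) hab)
  · have h1 : cj (ρ.tprod ρ) g (a ∘ₗ b) = a ∘ₗ b := by rw [cj_comp, ha, hb]
    have h2 := LinearMap.congr_fun h1 ((ρ.tprod ρ) g s)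
    rw [cj_apply, LinearMap.comp_apply, LinearMap.comp_apply, inv_self] at h2
    exact h2.symm
  · show a (b _) = a (b s)
    rw [hbc]

end H22GQ
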