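import Pool.Agent.H22.GQ.Fin

set_option autoImplicit false

open Module TensorProduct

namespace H22GQ

variable {k G : Type*} [Field k] [Group G]

/-- the mirror image of `SymS` -/
def SymT {Y : Type*} [AddCommGroup Y] [Module k Y] (σ : Representation k G Y) : Prop :=
  ∃ b : Y ⊗[k] Y →ₗ[k] Y ⊗[k] Y, (∀ g, cj (σ.tprod σ) g b = b) ∧
    (∀ s, TensorProduct.comm k Y Y (b s) = b s) ∧
    ∀ l : (Y ⊗[k] Y →ₗ[k] Y ⊗[k] Y) →ₗ[k] k, InvF (σ.tprod σ) l → l b = l LinearMap.id

section Prod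

variable {Y Z : Type*} [AddCommGroup Y] [Module k Y] [AddCommGroup Z] [Module k Z]

theorem SymT.prod {σ : Representation k G Y} {τ : Representation k G Z} (h₁ : SymT σ) (h₂ : SymT τ) :
    SymT (σ.tprod τ) := by
  obtain ⟨b₁, e₁, c₁, l₁⟩ := h₁
  obtain ⟨b₂, e₂, c₂, l₂⟩ := h₂
  refine ⟨Q b₁ b₂, fun g => by rw [← Q_cj, e₁, e₂], fun s => ?_, fun l hl => ?_⟩
  · apply (tensorTensorTensorComm k Y Z Y Z).injective
    rw [tt_comm, Q_apply]
    have : TensorProduct.map (TensorProduct.comm k Y Y).toLinearMap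
        (TensorProduct.comm k Z Z).toLinearMap ∘ₗ TensorProduct.map b₁ b₂ = TensorProduct.map b₁ b₂ := by
      rw [← TensorProduct.map_comp]
      congr 1
      · exact LinearMap.ext c₁
      · exact LinearMap.ext c₂
    exact LinearMap.congr_fun this _
  · have h1 := l₁ (l ∘ₗ Q.flip b₂) (fun g x => by
      show l (Q (cj (σ.tprod σ) g x) b₂) = l (Q x b₂)
      have h3 := hl g (Q x b₂)
      rw [← Q_cj, e₂] at h3
      exact h3)
    have h2 := l₂ (l ∘ₗ Q LinearMap.id) (fun g x => by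
      show l (Q LinearMap.id (cj (τ.tprod τ) g x)) = l (Q LinearMap.id x)
      have h3 := hl g (Q LinearMap.id x)
      have h4 : cj (σ.tprod σ) g LinearMap.id = LinearMap.id := cj_one _ g
      rw [← Q_cj, h4] at h3
      exact h3)
    have h3 : l (Q b₁ b₂) = l (Q LinearMap.id b₂) := h1
    have h4 : l (Q LinearMap.id b₂) = l (Q LinearMap.id LinearMap.id) := h2
    rw [h3, h4, Q_id]

theorem SymT.equiv {σ : Representation k G Y} {τ : Representation k G Z} (h : SymT σ) (e : Y ≃ₗ[k] Z)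
    (he : ∀ g y, e (σ g y) = τ g (e y)) : SymT τ := by
  obtain ⟨b, e₁, c₁, l₁⟩ := h
  let E : Y ⊗[k] Y ≃ₗ[k] Z ⊗[k] Z := TensorProduct.congr e e
  have hE : ∀ g s, E ((σ.tprod σ) g s) = (τ.tprod τ) g (E s) := by
    intro g s
    induction s using TensorProduct.induction_on with
    | zero => simp
    | tmul x y =>
      show e (σ g x) ⊗ₜ e (σ g y) = τ g (e x) ⊗ₜ τ g (e y)
      rw [he, he]
    | add s s' h h' => rw [map_add, map_add, map_add, h, h', map_add]
  have hEc : ∀ s, E (TensorProduct.comm k Y Y s) = TensorProduct.comm k Z Z (E s) := by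
    intro s
    induction s using TensorProduct.induction_on with
    | zero => simp
    | tmul x y => rfl
    | add s s' h h' => rw [map_add, map_add, map_add, h, h', map_add]
  have hEs : ∀ g s, E.symm ((τ.tprod τ) g s) = (σ.tprod σ) g (E.symm s) := fun g s => by
    apply E.injective
    rw [hE, E.apply_symm_apply, E.apply_symm_apply]
  let C : (Y ⊗[k] Y →ₗ[k] Y ⊗[k] Y) →ₗ[k] (Z ⊗[k] Z →ₗ[k] Z ⊗[k] Z) := (E.conj).toLinearMap
  have hC : ∀ x s, C x s = E (x (E.symm s)) := fun x s => rfl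
  have hCg : ∀ g x, C (cj (σ.tprod σ) g x) = cj (τ.tprod τ) g (C x) := by
    intro g x
    refine LinearMap.ext fun s => ?_
    show E ((σ.tprod σ) g (x ((σ.tprod σ) g⁻¹ (E.symm s)))) =
      (τ.tprod τ) g (E (x (E.symm ((τ.tprod τ) g⁻¹ s))))
    rw [hE, hEs]
  refine ⟨C b, fun g => by rw [← hCg, e₁], fun s => ?_, fun l hl => ?_⟩
  · rw [hC, ← hEc, c₁]
  · have h1 := l₁ (l ∘ₗ C) (fun g x => by
      show l (C _) = l (C _)
      rw [hCg, hl])
    have h2 : l (C b) = l (C LinearMap.id) := h1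
    rw [h2]
    congr 1
    refine LinearMap.ext fun s => ?_
    rw [hC]
    exact E.apply_symm_apply s

end Prod

theorem SymT.triv : SymT (Representation.trivial k G k) := by
  obtain ⟨b, e₁, c₁, l₁⟩ := SymS.triv (k := k) (G := G)
  refine ⟨LinearMap.id, fun g => cj_one _ g, fun s => ?_, fun l _ => rfl⟩
  show TensorProduct.comm k k k s = s
  induction s using TensorProduct.induction_on with
  | zero => simp
  | tmul x y =>
    rw [TensorProduct.comm_tmul]
    calc y ⊗ₜ[k] x = (y • (1 : k)) ⊗ₜ[k] (x • (1 : k)) := by simp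
      _ = (x • (1 : k)) ⊗ₜ[k] (y • (1 : k)) := by
        rw [TensorProduct.smul_tmul_smul, TensorProduct.smul_tmul_smul, mul_comm]
      _ = x ⊗ₜ[k] y := by simp
  | add s s' h h' => rw [map_add, h, h']

variable {V : Type*} [AddCommGroup V] [Module k V]

theorem symT_mul {ρ : Representation k G V} {j : ℕ} (h : SymT (tp ρ j)) (r : ℕ) :
    SymT (tp ρ (j * r)) := by
  induction r with
  | zero => exact SymT.triv.equiv _ (tp_zero_equiv ρ)
  | succ r ih => exact (ih.prod h).equiv _ (tp_succ_equiv ρ (j * r) j)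

theorem exists_b' [FiniteDimensional k V] {Y : Type*} [AddCommGroup Y] [Module k Y]
    {ρ : Representation k G V} {η : Representation k G Y} (t : V ⊗[k] (V ⊗[k] Y) →ₗ[k] k)
    (ht : ∀ g s, t ((ρ.tprod (ρ.tprod η)) g s) = t s) (w : V ⊗[k] (V ⊗[k] Y))
    (hw : ∀ g, (ρ.tprod (ρ.tprod η)) g w = w) (hsw : TensorProduct.leftComm k V V Y w = w) :
    ∃ b : V ⊗[k] V →ₗ[k] V ⊗[k] V, (∀ g, cj (ρ.tprod ρ) g b = b) ∧
      (∀ s, TensorProduct.comm k V V (b s) = b s) ∧ LinearMap.trace k _ b = t w := by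
  let A := TensorProduct.assoc k V V Y
  let w' := A.symm w
  have hA : ∀ g s, A (TensorProduct.map ((ρ.tprod ρ) g) (η g) s) = (ρ.tprod (ρ.tprod η)) g (A s) := by
    intro g s
    have : A.toLinearMap ∘ₗ (TensorProduct.map ((ρ.tprod ρ) g) (η g)) =
        (ρ.tprod (ρ.tprod η)) g ∘ₗ A.toLinearMap := by
      ext x y z
      rfl
    exact LinearMap.congr_fun this s
  have hw' : ∀ g, TensorProduct.map ((ρ.tprod ρ) g) (η g) w' = w' := fun g => by
    apply A.injective
    rw [hA, A.apply_symm_apply, hw]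
  let l₁ : (V ⊗[k] V →ₗ[k] V ⊗[k] V) →ₗ[k] k :=
    { toFun := fun x => t (A (x.rTensor Y w'))
      map_add' := fun x x' => by rw [LinearMap.rTensor_add, LinearMap.add_apply, map_add, map_add]
      map_smul' := fun a x => by
        rw [LinearMap.rTensor_smul, LinearMap.smul_apply, map_smul, map_smul, RingHom.id_apply] }
  have l₁ap : ∀ x, l₁ x = t (A (x.rTensor Y w')) := fun x => rfl
  have l₁inv : InvF (ρ.tprod ρ) l₁ := by
    intro g x
    rw [l₁ap, l₁ap]
    have e1 : (cj (ρ.tprod ρ) g x).rTensor Y w' = TensorProduct.map ((ρ.tprod ρ) g) (η g)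
        (x.rTensor Y (TensorProduct.map ((ρ.tprod ρ) g⁻¹) (η g⁻¹) w')) := by
      have : (cj (ρ.tprod ρ) g x).rTensor Y = TensorProduct.map ((ρ.tprod ρ) g) (η g) ∘ₗ
          x.rTensor Y ∘ₗ TensorProduct.map ((ρ.tprod ρ) g⁻¹) (η g⁻¹) := by
        unfold LinearMap.rTensor
        rw [← TensorProduct.map_comp, ← TensorProduct.map_comp, cj_apply]
        congr 1
        ext y
        simp
      rw [this]
      rfl
    rw [e1, hw', hA, ht]
  refine ⟨Cmap l₁, fun g => Cmap_cj _ l₁inv g, fun s => ?_, ?_⟩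
  · have h : (TensorProduct.comm k V V).toLinearMap ∘ₗ Cmap l₁ = Cmap l₁ := by
      refine tr_uniq fun x => ?_
      rw [← LinearMap.comp_assoc, Cmap_spec, Cmap_spec, l₁ap, l₁ap]
      have e1 : ∀ s : (V ⊗[k] V) ⊗[k] Y, A ((TensorProduct.comm k V V).toLinearMap.rTensor Y s) =
          TensorProduct.leftComm k V V Y (A s) := by
        intro s
        have : A.toLinearMap ∘ₗ ((TensorProduct.comm k V V).toLinearMap.rTensor Y) =
            (TensorProduct.leftComm k V V Y).toLinearMap ∘ₗ A.toLinearMap := by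
          ext x y z
          rfl
        exact LinearMap.congr_fun this s
      have e2 : (TensorProduct.comm k V V).toLinearMap.rTensor Y w' = w' := by
        apply A.injective
        rw [e1, A.apply_symm_apply, hsw]
      rw [LinearMap.rTensor_comp, LinearMap.comp_apply, e2]
    exact LinearMap.congr_fun h s
  · have h := Cmap_spec l₁ LinearMap.id
    rw [LinearMap.id_comp, l₁ap, LinearMap.rTensor_id] at h
    rw [h]
    show t (A (A.symm w)) = t w
    rw [A.apply_symm_apply]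

theorem exists_a' [FiniteDimensional k V] {Z : Type*} [AddCommGroup Z] [Module k Z]
    {ρ : Representation k G V} {ζ : Representation k G Z} (hζ : SymT ζ) (t : V ⊗[k] Z →ₗ[k] k)
    (ht : ∀ g s, t ((ρ.tprod ζ) g s) = t s) (w : V ⊗[k] Z) (hw : ∀ g, (ρ.tprod ζ) g w = w) :
    ∃ a : V ⊗[k] V →ₗ[k] V ⊗[k] V, (∀ g, cj (ρ.tprod ρ) g a = a) ∧
      (∀ s, a (TensorProduct.comm k V V s) = a s) ∧ LinearMap.trace k _ a = t w * t w := by
  obtain ⟨bz, e₁, c₁, l₁⟩ := hζ
  have hinv : ∀ g (x : V ⊗[k] V →ₗ[k] V ⊗[k] V) (y : Z ⊗[k] Z →ₗ[k] Z ⊗[k] Z),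
      tt t (Q (cj (ρ.tprod ρ) g x) (cj (ζ.tprod ζ) g y) (w ⊗ₜ w)) = tt t (Q x y (w ⊗ₜ w)) := by
    intro g x y
    rw [Q_cj]
    show tt t (TensorProduct.map ((ρ.tprod ζ) g) ((ρ.tprod ζ) g) (Q x y
      ((ρ.tprod ζ) g⁻¹ w ⊗ₜ (ρ.tprod ζ) g⁻¹ w))) = _
    rw [tt_inv t _ (ht g), hw]
  let l₂ : (V ⊗[k] V →ₗ[k] V ⊗[k] V) →ₗ[k] k :=
    { toFun := fun x => tt t (Q x bz (w ⊗ₜ w))
      map_add' := fun x x' => by
        rw [map_add, LinearMap.add_apply, LinearMap.add_apply, map_add]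
      map_smul' := fun a x => by
        rw [map_smul, LinearMap.smul_apply, LinearMap.smul_apply, map_smul, RingHom.id_apply] }
  have l₂ap : ∀ x, l₂ x = tt t (Q x bz (w ⊗ₜ w)) := fun x => rfl
  have l₂inv : InvF (ρ.tprod ρ) l₂ := fun g x => by
    rw [l₂ap, l₂ap]
    have h := hinv g x bz
    rw [e₁] at h
    exact h
  have httc : ∀ s, tt t (TensorProduct.comm k (V ⊗[k] Z) (V ⊗[k] Z) s) = tt t s := by
    intro s
    induction s using TensorProduct.induction_on with
    | zero => simp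
    | tmul x y =>
      rw [TensorProduct.comm_tmul, tt_tmul, tt_tmul, mul_comm]
    | add s s' h h' => rw [map_add, map_add, map_add, h, h']
  refine ⟨Cmap l₂, fun g => Cmap_cj _ l₂inv g, fun s => ?_, ?_⟩
  · have h : Cmap l₂ ∘ₗ (TensorProduct.comm k V V).toLinearMap = Cmap l₂ := by
      refine tr_uniq fun x => ?_
      rw [← LinearMap.comp_assoc, LinearMap.trace_comp_comm', ← LinearMap.comp_assoc, Cmap_spec,
        Cmap_spec, l₂ap, l₂ap]
      have e2 : Q ((TensorProduct.comm k V V).toLinearMap ∘ₗ x) bz (w ⊗ₜ w) =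
          TensorProduct.comm k (V ⊗[k] Z) (V ⊗[k] Z) (Q x bz (w ⊗ₜ w)) := by
        apply (tensorTensorTensorComm k V Z V Z).injective
        rw [tt_comm, Q_apply, Q_apply]
        have h5 : TensorProduct.map (TensorProduct.comm k V V).toLinearMap
            (TensorProduct.comm k Z Z).toLinearMap ∘ₗ TensorProduct.map x bz =
            TensorProduct.map ((TensorProduct.comm k V V).toLinearMap ∘ₗ x) bz := by
          rw [← TensorProduct.map_comp]
          congr 1
          exact LinearMap.ext c₁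
        exact (LinearMap.congr_fun h5 _).symm
      rw [e2, httc]
    exact LinearMap.congr_fun h s
  · have h := Cmap_spec l₂ LinearMap.id
    rw [LinearMap.id_comp, l₂ap] at h
    rw [h]
    let l₃ : (Z ⊗[k] Z →ₗ[k] Z ⊗[k] Z) →ₗ[k] k :=
      { toFun := fun y => tt t (Q LinearMap.id y (w ⊗ₜ w))
        map_add' := fun x x' => by rw [map_add, LinearMap.add_apply, map_add]
        map_smul' := fun a x => by rw [map_smul, LinearMap.smul_apply, map_smul, RingHom.id_apply] }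
    have h3 : l₃ bz = l₃ LinearMap.id := l₁ l₃ (fun g y => by
      have h4 := hinv g LinearMap.id y
      have h5 : cj (ρ.tprod ρ) g LinearMap.id = LinearMap.id := cj_one _ g
      rw [h5] at h4
      exact h4)
    have h4 : l₃ bz = tt t (Q LinearMap.id bz (w ⊗ₜ w)) := rfl
    have h5 : l₃ LinearMap.id = tt t (Q LinearMap.id LinearMap.id (w ⊗ₜ w)) := rfl
    rw [← h4, h3, h5, Q_id, LinearMap.id_apply, tt_tmul]

theorem sym_core' [CharP k 2] [PerfectRing k 2] [FiniteDimensional k V] [Finite G] (hG : IsPGroup 2 G)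
    {ρ : Representation k G V} (hodd : Odd (finrank k V)) (hI : IsInv ρ) {r : ℕ} (hr : 1 ≤ r)
    (hrt : HasTriv (tp ρ r)) (j : ℕ) {Y : Type*} [AddCommGroup Y] [Module k Y]
    {η : Representation k G Y} (t : (⨂[k]^j V) ⊗[k] ((⨂[k]^j V) ⊗[k] Y) →ₗ[k] k)
    (ht : ∀ g s, t (((tp ρ j).tprod ((tp ρ j).tprod η)) g s) = t s)
    (w : (⨂[k]^j V) ⊗[k] ((⨂[k]^j V) ⊗[k] Y))
    (hw : ∀ g, ((tp ρ j).tprod ((tp ρ j).tprod η)) g w = w)
    (hsw : TensorProduct.leftComm k (⨂[k]^j V) (⨂[k]^j V) Y w = w) (hne : t w ≠ 0) :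
    HasTriv (tp ρ j) := by
  have hI' := isInv_tp hI j
  have hodd' := odd_tp hodd j
  obtain ⟨b, hb, hbc, hbt⟩ := exists_b' t ht w hw hsw
  have hS : SymT (tp ρ j) := by
    refine ⟨(t w)⁻¹ • b, fun g => by rw [map_smul, hb], fun s => ?_, fun l hl => ?_⟩
    · rw [LinearMap.smul_apply, map_smul, hbc]
    · rw [map_smul, m2 hodd' hI' hb hl, hbt, smul_eq_mul, ← mul_assoc, inv_mul_cancel₀ hne, one_mul]
  obtain ⟨t', w', ht', hw', hn'⟩ : HasTriv ((tp ρ j).tprod (tp ρ (j * (r - 1)))) := by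
    have h1 := hasTriv_mul hrt j
    have h2 : r * j = j + j * (r - 1) := by
      obtain ⟨q, rfl⟩ : ∃ q, r = q + 1 := ⟨r - 1, by omega⟩
      rw [Nat.add_sub_cancel]
      ring
    rw [h2] at h1
    exact h1.equiv' _ (tp_succ_equiv ρ j (j * (r - 1)))
  obtain ⟨a, ha, hac, hat⟩ := exists_a' (symT_mul hS (r - 1)) t' ht' w' hw'
  have hab : LinearMap.trace k _ (b ∘ₗ a) ≠ 0 := by
    have h := m2 hodd' hI' hb (l := T2 a) (fun g x => by
      rw [T2_apply, T2_apply]
      have h1 : cj ((tp ρ j).tprod (tp ρ j)) g x ∘ₗ a = cj ((tp ρ j).tprod (tp ρ j)) g (x ∘ₗ a) := by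
        rw [cj_comp, ha]
      rw [h1, tr_cj])
    rw [T2_apply, T2_apply, LinearMap.id_comp, hat, hbt] at h
    rw [h]
    exact mul_ne_zero hne (mul_ne_zero hn' hn')
  refine core_sum hG hodd' hI' (b ∘ₗ a) (fun g => by rw [cj_comp, ha, hb]) (fun s => hbc _) (fun s => ?_) hab
  show b (a _) = b (a s)
  rw [hac]

theorem invol_case' [CharP k 2] [PerfectRing k 2] [FiniteDimensional k V] [Finite G] (hG : IsPGroup 2 G)
    {ρ : Representation k G V} (hodd : Odd (finrank k V)) (hI : IsInv ρ) {r : ℕ} (hr : 1 ≤ r)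
    (hrt : HasTriv (tp ρ r)) {m : ℕ} {Y : Type*} [AddCommGroup Y] [Module k Y]
    {η : Representation k G Y} (t : (⨂[k]^m V) ⊗[k] Y →ₗ[k] k)
    (ht : ∀ g x, t (((tp ρ m).tprod η) g x) = t x) (w : (⨂[k]^m V) ⊗[k] Y)
    (hw : ∀ g, ((tp ρ m).tprod η) g w = w) (hne : t w ≠ 0) (s : Equiv.Perm (Fin m))
    (hfw : fx s w = w) (hs : ∀ i, s (s i) = i) : HasTriv (tp ρ (Fintype.card (PA s))) := by
  obtain ⟨e₀⟩ : Nonempty (Fin (Fintype.card (PA s)) ≃ PA s) := ⟨(Fintype.equivFin _).symm⟩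
  generalize Fintype.card (PA s) = j at e₀
  let e : Fin j ⊕ (Fin j ⊕ PB s) ≃ Fin m := Equiv.ofBijective (pe s e₀) (pe_bij s hs e₀)
  have hsw : ∀ (a b : Fin j → V) (c : PB s → V) (i : Fin m),
      Sum.elim b (Sum.elim a c) (e.symm i) = Sum.elim a (Sum.elim b c) (e.symm (s i)) := by
    intro a b c i
    obtain ⟨q, rfl⟩ := e.surjective i
    rw [e.symm_apply_apply]
    rcases q with q | q | q
    · have h1 : s (e (Sum.inl q)) = e (Sum.inr (Sum.inl q)) := rfl
      rw [h1, e.symm_apply_apply]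
      rfl
    · have h1 : s (e (Sum.inr (Sum.inl q))) = e (Sum.inl q) := hs _
      rw [h1, e.symm_apply_apply]
      rfl
    · have h1 : s (e (Sum.inr (Sum.inr q))) = e (Sum.inr (Sum.inr q)) := q.2
      rw [h1, e.symm_apply_apply]
      rfl
  refine sym_core' hG hodd hI hr hrt j (η := (tpi ρ (PB s)).tprod η) (t ∘ₗ (LL k V Y e).toLinearMap)
    (fun g x => ?_) ((LL k V Y e).symm w) (fun g => ?_) ?_ ?_
  · show t (LL k V Y e _) = t (LL k V Y e _)
    rw [LL_eq, ht]
  · apply (LL k V Y e).injective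
    rw [LL_eq, LinearEquiv.apply_symm_apply, hw]
  · apply (LL k V Y e).injective
    rw [LL_leftComm e s hs hsw, LinearEquiv.apply_symm_apply, hfw]
  · show t (LL k V Y e ((LL k V Y e).symm w)) ≠ 0
    rw [LinearEquiv.apply_symm_apply]
    exact hne

end H22GQ
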