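import Pool.Agent.H22.GQ.Fit

set_option autoImplicit false

open Module

namespace H22GQ

variable {k G V : Type*} [Field k] [Group G] [AddCommGroup V] [Module k V]

/-- An indecomposable representation of odd dimension with a semilinear equivariant product `β` for which
some nonzero invariant vector `v` satisfies `β v v = v` has dimension one. -/
theorem dim_one [CharP k 2] [FiniteDimensional k V] {ρ : Representation k G V} (hind : Indec ρ)
    (hodd : Odd (finrank k V)) (r : k ≃+* k) (β : V → V → V)
    (a1 : ∀ x x' y, β (x + x') y = β x y + β x' y) (a2 : ∀ x y y', β x (y + y') = β x y + β x y')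
    (s1 : ∀ a x y, β (a • x) y = r a • β x y) (s2 : ∀ a x y, β x (a • y) = r a • β x y)
    (heq : ∀ g x y, β (ρ g x) (ρ g y) = ρ g (β x y)) {v : V} (hv : v ≠ 0) (hvG : ∀ g, ρ g v = v)
    (hvv : β v v = v) : finrank k V = 1 := by
  have hit : ∀ n, (β v)^[n] v = v := fun n => Function.iterate_fixed hvv n
  have hbij : Function.Bijective (β v) :=
    bij_of_not_nil r (β v) (a2 v) (fun a x => s2 a v x) hind
      (fun g x => by
        have h := heq g v x
        rw [hvG] at h
        exact h) (fun n => ⟨v, by rw [hit]; exact hv⟩)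
  let e : V ≃ V := Equiv.ofBijective (β v) hbij
  have he : ∀ x, β v (e.symm x) = x := fun x => e.apply_symm_apply x
  have hinj := hbij.1
  have eadd : ∀ x y, e.symm (x + y) = e.symm x + e.symm y := fun x y => hinj (by
    rw [he, a2, he, he])
  have esm : ∀ (a : k) x, e.symm (r a • x) = a • e.symm x := fun a x => hinj (by
    rw [he, s2, he])
  have eeq : ∀ g x, e.symm (ρ g x) = ρ g (e.symm x) := fun g x => hinj (by
    rw [he]
    have h := heq g v (e.symm x)
    rw [hvG, he] at h
    exact h.symm)
  let R : V → (V →ₗ[k] V) := fun x =>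
    { toFun := fun y => e.symm (β x y)
      map_add' := fun y y' => by rw [a2, eadd]
      map_smul' := fun a y => by rw [s2, esm, RingHom.id_apply] }
  have Rap : ∀ x y, R x y = e.symm (β x y) := fun x y => rfl
  let φ : V →ₗ[k] k :=
    { toFun := fun x => LinearMap.trace k V (R x)
      map_add' := fun x x' => by
        rw [← map_add]
        congr 1
        ext y
        rw [LinearMap.add_apply, Rap, Rap, Rap, a1, eadd]
      map_smul' := fun a x => by
        rw [RingHom.id_apply, ← map_smul]
        congr 1
        ext y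
        rw [LinearMap.smul_apply, Rap, Rap, s1, esm] }
  have φap : ∀ x, φ x = LinearMap.trace k V (R x) := fun x => rfl
  have hφG : ∀ g x, φ (ρ g x) = φ x := by
    intro g x
    rw [φap, φap]
    have hg : (ρ g⁻¹) ∘ₗ (ρ g) = LinearMap.id := by
      have : ρ g⁻¹ * ρ g = 1 := by rw [← map_mul, inv_mul_cancel, map_one]
      exact this
    have hg' : (ρ g) ∘ₗ (ρ g⁻¹) = LinearMap.id := by
      have : ρ g * ρ g⁻¹ = 1 := by rw [← map_mul, mul_inv_cancel, map_one]
      exact this
    have h1 : R (ρ g x) = (ρ g ∘ₗ R x) ∘ₗ ρ g⁻¹ := by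
      ext y
      rw [LinearMap.comp_apply, LinearMap.comp_apply, Rap, Rap, ← eeq, ← heq]
      have h2 : ρ g (ρ g⁻¹ y) = y := LinearMap.congr_fun hg' y
      rw [h2]
    rw [h1, LinearMap.trace_comp_comm', ← LinearMap.comp_assoc, hg, LinearMap.id_comp]
  have hRv : R v = LinearMap.id := by
    ext y
    rw [Rap]
    exact e.symm_apply_apply y
  have hφv : φ v ≠ 0 := by
    rw [φap, hRv, LinearMap.trace_id]
    obtain ⟨m, hm⟩ := hodd
    rw [hm]
    have h2 : (2 : k) = 0 := by exact_mod_cast CharP.cast_eq_zero k 2
    push_cast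
    rw [h2, zero_mul, zero_add]
    exact one_ne_zero
  have hc : IsCompl (Submodule.span k {v}) (LinearMap.ker φ) := by
    rw [isCompl_iff, Submodule.disjoint_def, Submodule.codisjoint_iff_exists_add_eq]
    refine ⟨?_, ?_⟩
    · intro x hx hx'
      obtain ⟨a, rfl⟩ := Submodule.mem_span_singleton.1 hx
      rw [LinearMap.mem_ker, map_smul, smul_eq_mul, mul_eq_zero] at hx'
      rcases hx' with h | h
      · rw [h, zero_smul]
      · exact absurd h hφv
    · intro z
      refine ⟨(φ z / φ v) • v, z - (φ z / φ v) • v,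
        Submodule.smul_mem _ _ (Submodule.mem_span_singleton_self v), ?_, add_sub_cancel _ _⟩
      rw [LinearMap.mem_ker, map_sub, map_smul, smul_eq_mul, div_mul_cancel₀ _ hφv, sub_self]
  rcases hind.2 _ _ (fun g x hx => by
    obtain ⟨a, rfl⟩ := Submodule.mem_span_singleton.1 hx
    rw [map_smul, hvG]
    exact hx) (fun g x hx => by
    rw [LinearMap.mem_ker] at hx ⊢
    rw [hφG, hx]) hc with h | h
  · exfalso
    apply hv
    rw [← Submodule.mem_bot k, ← h]
    exact Submodule.mem_span_singleton_self v
  · rw [h] at hc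
    have h1 : Submodule.span k {v} = ⊤ := eq_top_of_isCompl_bot hc
    rw [← finrank_top, ← h1]
    exact finrank_span_singleton hv

end H22GQ
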