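import Pool.Agent.H22.GQ.Pow

set_option autoImplicit false

open Module TensorProduct

namespace H22GQ

section Invol

variable {m : ℕ} (s : Equiv.Perm (Fin m))

/-- one point of each 2-cycle -/
abbrev PA := {i : Fin m // i < s i}
/-- fixed points -/
abbrev PB := {i : Fin m // s i = i}

/-- the numbering -/
def pe {j : ℕ} (e : Fin j ≃ PA s) : Fin j ⊕ (Fin j ⊕ PB s) → Fin m
  | Sum.inl a => (e a).1
  | Sum.inr (Sum.inl a) => s (e a).1
  | Sum.inr (Sum.inr b) => b.1

theorem pe_bij (hs : ∀ i, s (s i) = i) {j : ℕ} (e : Fin j ≃ PA s) : Function.Bijective (pe s e) := by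
  constructor
  · rintro (a | a | b) (a' | a' | b') h
    · exact congrArg Sum.inl (e.injective (Subtype.ext h))
    · exfalso
      have h1 : (e a).1 = s (e a').1 := h
      have h2 := (e a).2
      have h3 := (e a').2
      rw [h1, hs] at h2
      exact absurd h2 (not_lt.2 h3.le)
    · exfalso
      have h1 : (e a).1 = b'.1 := h
      have h2 := (e a).2
      rw [h1, b'.2] at h2
      exact lt_irrefl _ h2
    · exfalso
      have h1 : s (e a).1 = (e a').1 := h
      have h2 := (e a').2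
      rw [← h1, hs] at h2
      exact absurd h2 (not_lt.2 (e a).2.le)
    · have h1 : s (e a).1 = s (e a').1 := h
      exact congrArg (Sum.inr ∘ Sum.inl) (e.injective (Subtype.ext (s.injective h1)))
    · exfalso
      have h1 : s (e a).1 = b'.1 := h
      have h2 := congrArg s h1
      rw [hs, b'.2, ← h1] at h2
      exact absurd (e a).2 (by rw [← h2]; exact lt_irrefl _)
    · exfalso
      have h1 : b.1 = (e a').1 := h
      have h2 := (e a').2
      rw [← h1, b.2] at h2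
      exact lt_irrefl _ h2
    · exfalso
      have h1 : b.1 = s (e a').1 := h
      have h2 := congrArg s h1
      rw [hs, b.2, h1] at h2
      exact absurd (e a').2 (by rw [h2]; exact lt_irrefl _)
    · exact congrArg (Sum.inr ∘ Sum.inr) (Subtype.ext h)
  · intro i
    rcases lt_trichotomy i (s i) with h | h | h
    · exact ⟨Sum.inl (e.symm ⟨i, h⟩), by
        show (e (e.symm ⟨i, h⟩)).1 = i
        rw [e.apply_symm_apply]⟩
    · exact ⟨Sum.inr (Sum.inr ⟨i, h.symm⟩), rfl⟩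
    · have h2 : s i < s (s i) := by rw [hs]; exact h
      exact ⟨Sum.inr (Sum.inl (e.symm ⟨s i, h2⟩)), by
        show s (e (e.symm ⟨s i, h2⟩)).1 = i
        rw [e.apply_symm_apply, hs]⟩

end Invol

variable {k G : Type*} [Field k] [Group G] {V : Type*} [AddCommGroup V] [Module k V]

/-- tensor powers over an index type -/
noncomputable def tpi (ρ : Representation k G V) (ι : Type) : Representation k G (⨂[k] _ : ι, V) where
  toFun g := PiTensorProduct.map fun _ => ρ g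
  map_one' := by
    rw [map_one]
    exact PiTensorProduct.map_one
  map_mul' g h := by
    rw [map_mul]
    exact PiTensorProduct.map_mul _ _

theorem tpi_tprod (ρ : Representation k G V) (ι : Type) (g : G) (a : ι → V) :
    tpi ρ ι g (PiTensorProduct.tprod k a) = PiTensorProduct.tprod k fun i => ρ g (a i) :=
  PiTensorProduct.map_tprod _ _

section L

variable {m j : ℕ} {B : Type} {Y : Type*} [AddCommGroup Y] [Module k Y]

theorem ext4 {M : Type*} [AddCommGroup M] [Module k M]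
    {f g : (⨂[k]^j V) ⊗[k] ((⨂[k]^j V) ⊗[k] ((⨂[k] _ : B, V) ⊗[k] Y)) →ₗ[k] M}
    (h : ∀ a b c y, f (PiTensorProduct.tprod k a ⊗ₜ (PiTensorProduct.tprod k b ⊗ₜ
      (PiTensorProduct.tprod k c ⊗ₜ y))) = g (PiTensorProduct.tprod k a ⊗ₜ (PiTensorProduct.tprod k b ⊗ₜ
      (PiTensorProduct.tprod k c ⊗ₜ y)))) : f = g := by
  refine TensorProduct.ext ?_
  refine PiTensorProduct.ext ?_
  refine MultilinearMap.ext fun a => ?_
  refine TensorProduct.ext ?_
  refine PiTensorProduct.ext ?_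
  refine MultilinearMap.ext fun b => ?_
  refine TensorProduct.ext ?_
  refine PiTensorProduct.ext ?_
  refine MultilinearMap.ext fun c => ?_
  refine LinearMap.ext fun y => ?_
  exact h a b c y

/-- regrouping of the factors -/
noncomputable def LL (k V Y : Type*) [Field k] [AddCommGroup V] [Module k V] [AddCommGroup Y] [Module k Y]
    (e : Fin j ⊕ (Fin j ⊕ B) ≃ Fin m) :
    (⨂[k]^j V) ⊗[k] ((⨂[k]^j V) ⊗[k] ((⨂[k] _ : B, V) ⊗[k] Y)) ≃ₗ[k] (⨂[k]^m V) ⊗[k] Y :=
  (TensorProduct.congr (LinearEquiv.refl k _)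
    (TensorProduct.assoc k (⨂[k]^j V) (⨂[k] _ : B, V) Y).symm).trans
  ((TensorProduct.assoc k (⨂[k]^j V) ((⨂[k]^j V) ⊗[k] (⨂[k] _ : B, V)) Y).symm.trans
  (TensorProduct.congr ((TensorProduct.congr (LinearEquiv.refl k _)
    (PiTensorProduct.tmulEquiv k V)).trans ((PiTensorProduct.tmulEquiv k V).trans
      (PiTensorProduct.reindex k (fun _ => V) e))) (LinearEquiv.refl k Y)))

theorem LL_tprod (e : Fin j ⊕ (Fin j ⊕ B) ≃ Fin m) (a b : Fin j → V) (c : B → V) (y : Y) :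
    LL k V Y e (PiTensorProduct.tprod k a ⊗ₜ (PiTensorProduct.tprod k b ⊗ₜ
      (PiTensorProduct.tprod k c ⊗ₜ y))) =
    PiTensorProduct.tprod k (fun i => Sum.elim a (Sum.elim b c) (e.symm i)) ⊗ₜ y := by
  show (PiTensorProduct.reindex k (fun _ => V) e) (PiTensorProduct.tmulEquiv k V
    (PiTensorProduct.tprod k a ⊗ₜ (PiTensorProduct.tmulEquiv k V (PiTensorProduct.tprod k b ⊗ₜ
      PiTensorProduct.tprod k c)))) ⊗ₜ y = _
  rw [PiTensorProduct.tmulEquiv_apply, PiTensorProduct.tmulEquiv_apply]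
  congr 1
  exact PiTensorProduct.reindex_tprod _ _

theorem LL_eq (ρ : Representation k G V) (η : Representation k G Y) (e : Fin j ⊕ (Fin j ⊕ B) ≃ Fin m)
    (g : G) (s : (⨂[k]^j V) ⊗[k] ((⨂[k]^j V) ⊗[k] ((⨂[k] _ : B, V) ⊗[k] Y))) :
    LL k V Y e (((tp ρ j).tprod ((tp ρ j).tprod ((tpi ρ B).tprod η))) g s) =
      ((tp ρ m).tprod η) g (LL k V Y e s) := by
  have key : (LL k V Y e).toLinearMap ∘ₗ (((tp ρ j).tprod ((tp ρ j).tprod ((tpi ρ B).tprod η))) g) =
      (((tp ρ m).tprod η) g) ∘ₗ (LL k V Y e).toLinearMap := by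
    refine ext4 fun a b c y => ?_
    show LL k V Y e (tp ρ j g (PiTensorProduct.tprod k a) ⊗ₜ (tp ρ j g (PiTensorProduct.tprod k b) ⊗ₜ
      (tpi ρ B g (PiTensorProduct.tprod k c) ⊗ₜ η g y))) = ((tp ρ m).tprod η) g (LL k V Y e
        (PiTensorProduct.tprod k a ⊗ₜ (PiTensorProduct.tprod k b ⊗ₜ (PiTensorProduct.tprod k c ⊗ₜ y))))
    rw [tp_tprod, tp_tprod, tpi_tprod, LL_tprod, LL_tprod]
    show _ = tp ρ m g (PiTensorProduct.tprod k fun i => Sum.elim a (Sum.elim b c) (e.symm i)) ⊗ₜ η g y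
    rw [tp_tprod]
    congr 2
    ext i
    rcases e.symm i with a' | b' | c' <;> rfl
  exact LinearMap.congr_fun key s

end L

/-- the form `t` is unchanged by the permutation `s` of the factors -/
def Fixes {m : ℕ} {Y : Type*} [AddCommGroup Y] [Module k Y] (t : (⨂[k]^m V) ⊗[k] Y →ₗ[k] k)
    (s : Equiv.Perm (Fin m)) : Prop :=
  ∀ (a : Fin m → V) (y : Y), t (PiTensorProduct.tprod k (fun i => a (s i)) ⊗ₜ y) =
    t (PiTensorProduct.tprod k a ⊗ₜ y)

theorem Fixes.pow {m : ℕ} {Y : Type*} [AddCommGroup Y] [Module k Y] {t : (⨂[k]^m V) ⊗[k] Y →ₗ[k] k}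
    {s : Equiv.Perm (Fin m)} (h : Fixes t s) (n : ℕ) : Fixes t (s ^ n) := by
  induction n with
  | zero => intro a y; rfl
  | succ n ih =>
    intro a y
    rw [← ih a y, ← h (fun i => a ((s ^ n) i)) y]
    rfl

theorem invol_case [CharP k 2] [PerfectRing k 2] [FiniteDimensional k V] [Finite G] (hG : IsPGroup 2 G)
    {ρ : Representation k G V} (hodd : Odd (finrank k V)) (hI : IsInv ρ) {r : ℕ} (hr : 1 ≤ r)
    (hrt : HasTriv (tp ρ r)) {m : ℕ} {Y : Type*} [AddCommGroup Y] [Module k Y]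
    {η : Representation k G Y} (t : (⨂[k]^m V) ⊗[k] Y →ₗ[k] k)
    (ht : ∀ g x, t (((tp ρ m).tprod η) g x) = t x) (w : (⨂[k]^m V) ⊗[k] Y)
    (hw : ∀ g, ((tp ρ m).tprod η) g w = w) (hne : t w ≠ 0) (s : Equiv.Perm (Fin m)) (hf : Fixes t s)
    (hs : ∀ i, s (s i) = i) : HasTriv (tp ρ (Fintype.card (PA s))) := by
  obtain ⟨e₀⟩ : Nonempty (Fin (Fintype.card (PA s)) ≃ PA s) := ⟨(Fintype.equivFin _).symm⟩
  generalize Fintype.card (PA s) = j at e₀
  let e : Fin j ⊕ (Fin j ⊕ PB s) ≃ Fin m := Equiv.ofBijective (pe s e₀) (pe_bij s hs e₀)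
  have hsw : ∀ (a b : Fin j → V) (c : PB s → V) (i : Fin m),
      Sum.elim b (Sum.elim a c) (e.symm i) = Sum.elim a (Sum.elim b c) (e.symm (s i)) := by
    intro a b c i
    obtain ⟨q, rfl⟩ := e.surjective i
    rw [e.symm_apply_apply]
    rcases q with q | q | q
    · have h1 : s (e (Sum.inl q)) = e (Sum.inr (Sum.inl q)) := rfl
      rw [h1, e.symm_apply_apply]
      rfl
    · have h1 : s (e (Sum.inr (Sum.inl q))) = e (Sum.inl q) := hs _
      rw [h1, e.symm_apply_apply]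
      rfl
    · have h1 : s (e (Sum.inr (Sum.inr q))) = e (Sum.inr (Sum.inr q)) := q.2
      rw [h1, e.symm_apply_apply]
      rfl
  refine sym_core hG hodd hI hr hrt j (η := (tpi ρ (PB s)).tprod η) (t ∘ₗ (LL k V Y e).toLinearMap)
    (fun g x => ?_) (fun x y z => ?_) ((LL k V Y e).symm w) (fun g => ?_) ?_
  · show t (LL k V Y e _) = t (LL k V Y e _)
    rw [LL_eq, ht]
  · have h1 : t ∘ₗ (LL k V Y e).toLinearMap = (t ∘ₗ (LL k V Y e).toLinearMap) ∘ₗ
        (TensorProduct.leftComm k (⨂[k]^j V) (⨂[k]^j V) ((⨂[k] _ : PB s, V) ⊗[k] Y)).toLinearMap := by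
      refine ext4 fun a b c y => ?_
      show t (LL k V Y e (PiTensorProduct.tprod k a ⊗ₜ (PiTensorProduct.tprod k b ⊗ₜ
        (PiTensorProduct.tprod k c ⊗ₜ y)))) = t (LL k V Y e (PiTensorProduct.tprod k b ⊗ₜ
        (PiTensorProduct.tprod k a ⊗ₜ (PiTensorProduct.tprod k c ⊗ₜ y))))
      rw [LL_tprod, LL_tprod, ← hf (fun i => Sum.elim a (Sum.elim b c) (e.symm i)) y]
      congr 3
      ext i
      exact (hsw a b c i).symm
    exact LinearMap.congr_fun h1 (x ⊗ₜ (y ⊗ₜ z))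
  · apply (LL k V Y e).injective
    rw [LL_eq, LinearEquiv.apply_symm_apply, hw]
  · show t (LL k V Y e ((LL k V Y e).symm w)) ≠ 0
    rw [LinearEquiv.apply_symm_apply]
    exact hne

theorem odd_case [CharP k 2] [PerfectRing k 2] [FiniteDimensional k V] [Finite G] (hG : IsPGroup 2 G)
    {ρ : Representation k G V} (hodd : Odd (finrank k V)) (hI : IsInv ρ) {r : ℕ} (hr : 1 ≤ r)
    (hrt : HasTriv (tp ρ r)) {m : ℕ} {Y : Type*} [AddCommGroup Y] [Module k Y]
    {η : Representation k G Y} (t : (⨂[k]^m V) ⊗[k] Y →ₗ[k] k)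
    (ht : ∀ g x, t (((tp ρ m).tprod η) g x) = t x) (w : (⨂[k]^m V) ⊗[k] Y)
    (hw : ∀ g, ((tp ρ m).tprod η) g w = w) (hne : t w ≠ 0) (s : Equiv.Perm (Fin m)) (hf : Fixes t s)
    (hj : ∀ j, 1 ≤ j → 2 * j ≤ m → ¬ HasTriv (tp ρ j)) : Odd (orderOf s) := by
  by_contra hev
  rw [Nat.not_odd_iff_even] at hev
  obtain ⟨q, hq⟩ := hev
  have hpos : 0 < orderOf s := orderOf_pos s
  have hs2 : (s ^ q) * (s ^ q) = 1 := by rw [← pow_add, ← hq, pow_orderOf_eq_one]
  have hs : ∀ i, (s ^ q) ((s ^ q) i) = i := fun i => by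
    rw [← Equiv.Perm.mul_apply, hs2]
    rfl
  have hne1 : s ^ q ≠ 1 := fun h => by
    have := orderOf_le_of_pow_eq_one (by omega : 0 < q) h
    omega
  have h1 := invol_case hG hodd hI hr hrt t ht w hw hne (s ^ q) (hf.pow q) hs
  have hex : ∃ i, (s ^ q) i ≠ i := by
    by_contra hcon
    push Not at hcon
    exact hne1 (Equiv.ext hcon)
  obtain ⟨i, hi⟩ := hex
  have hA : Nonempty (PA (s ^ q)) := by
    rcases lt_or_gt_of_ne hi with h | h
    · exact ⟨⟨(s ^ q) i, by rw [hs]; exact h⟩⟩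
    · exact ⟨⟨i, h⟩⟩
  refine hj _ (Fintype.card_pos_iff.2 hA) ?_ h1
  have h2 := Fintype.card_congr (Equiv.ofBijective _ (pe_bij (s ^ q) hs (Fintype.equivFin _).symm))
  rw [Fintype.card_sum, Fintype.card_sum, Fintype.card_fin, Fintype.card_fin] at h2
  omega

end H22GQ
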