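import Pool.Agent.H22.GQ.Summ

set_option autoImplicit false

open Module TensorProduct

namespace H22GQ

variable {k G : Type*} [Field k] [Group G] {V : Type*} [AddCommGroup V] [Module k V]

theorem tp_succ_equiv (ρ : Representation k G V) (n m : ℕ) (g : G) (s : (⨂[k]^n V) ⊗[k] (⨂[k]^m V)) :
    TensorPower.mulEquiv (((tp ρ n).tprod (tp ρ m)) g s) =
      tp ρ (n + m) g (TensorPower.mulEquiv (R := k) (M := V) (n := n) (m := m) s) := by
  have key : (TensorPower.mulEquiv (R := k) (M := V) (n := n) (m := m)).toLinearMap ∘ₗ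
      (TensorProduct.map (tp ρ n g) (tp ρ m g)) =
      tp ρ (n + m) g ∘ₗ (TensorPower.mulEquiv (R := k) (M := V) (n := n) (m := m)).toLinearMap := by
    refine TensorProduct.ext ?_
    refine PiTensorProduct.ext ?_
    refine MultilinearMap.ext fun a => ?_
    refine PiTensorProduct.ext ?_
    refine MultilinearMap.ext fun b => ?_
    show TensorPower.mulEquiv (tp ρ n g (PiTensorProduct.tprod k a) ⊗ₜ tp ρ m g (PiTensorProduct.tprod k b)) =
      tp ρ (n + m) g (TensorPower.mulEquiv (PiTensorProduct.tprod k a ⊗ₜ PiTensorProduct.tprod k b))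
    rw [tp_tprod, tp_tprod]
    have e1 := TensorPower.tprod_mul_tprod k a b
    have e2 := TensorPower.tprod_mul_tprod k (fun i => ρ g (a i)) (fun i => ρ g (b i))
    rw [TensorPower.gMul_def] at e1 e2
    rw [e1, e2, tp_tprod]
    congr 1
    ext i
    refine Fin.addCases (fun i => ?_) (fun i => ?_) i
    · rw [Fin.append_left, Fin.append_left]
    · rw [Fin.append_right, Fin.append_right]
  exact LinearMap.congr_fun key s

theorem tp_zero_equiv (ρ : Representation k G V) (g : G) (y : k) :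
    (PiTensorProduct.isEmptyEquiv (R := k) (s := fun _ : Fin 0 => V) (Fin 0)).symm
      (Representation.trivial k G k g y) =
    tp ρ 0 g ((PiTensorProduct.isEmptyEquiv (R := k) (s := fun _ : Fin 0 => V) (Fin 0)).symm y) := by
  apply (PiTensorProduct.isEmptyEquiv (R := k) (s := fun _ : Fin 0 => V) (Fin 0)).injective
  rw [LinearEquiv.apply_symm_apply]
  have h1 : ∀ s : ⨂[k]^0 V, tp ρ 0 g s = s := by
    intro s
    induction s using PiTensorProduct.induction_on with
    | smul_tprod r f =>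
      rw [map_smul, tp_tprod]
      congr 2
      ext i
      exact i.elim0
    | add x y hx hy => rw [map_add, hx, hy]
  rw [h1, LinearEquiv.apply_symm_apply]
  rfl

theorem tp_one_equiv (ρ : Representation k G V) (g : G) (y : V) :
    (PiTensorProduct.subsingletonEquiv (R := k) (s := fun _ : Fin 1 => V) 0).symm (ρ g y) =
      tp ρ 1 g ((PiTensorProduct.subsingletonEquiv (R := k) (s := fun _ : Fin 1 => V) 0).symm y) := by
  apply (PiTensorProduct.subsingletonEquiv (R := k) (s := fun _ : Fin 1 => V) 0).injective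
  rw [LinearEquiv.apply_symm_apply]
  have h2 : ∀ s : ⨂[k]^1 V, PiTensorProduct.subsingletonEquiv (R := k) (s := fun _ : Fin 1 => V) 0
      (tp ρ 1 g s) = ρ g (PiTensorProduct.subsingletonEquiv (R := k) (s := fun _ : Fin 1 => V) 0 s) := by
    intro s
    induction s using PiTensorProduct.induction_on with
    | smul_tprod r f =>
      rw [map_smul, map_smul, tp_tprod, PiTensorProduct.subsingletonEquiv_apply_tprod, map_smul,
        PiTensorProduct.subsingletonEquiv_apply_tprod, map_smul]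
    | add x y hx hy => rw [map_add, map_add, hx, hy, map_add, map_add]
  rw [h2, LinearEquiv.apply_symm_apply]

theorem isInv_tp [FiniteDimensional k V] {ρ : Representation k G V} (h : IsInv ρ) (n : ℕ) :
    IsInv (tp ρ n) := by
  induction n with
  | zero => exact IsInv.triv.equiv _ (tp_zero_equiv ρ)
  | succ n ih => exact (ih.prod (h.equiv _ (tp_one_equiv ρ))).equiv _ (tp_succ_equiv ρ n 1)

theorem odd_tp [FiniteDimensional k V] (h : Odd (finrank k V)) (n : ℕ) : Odd (finrank k (⨂[k]^n V)) := by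
  induction n with
  | zero =>
    rw [(PiTensorProduct.isEmptyEquiv (R := k) (s := fun _ : Fin 0 => V) (Fin 0)).finrank_eq,
      Module.finrank_self]
    exact odd_one
  | succ n ih =>
    rw [← (TensorPower.mulEquiv (R := k) (M := V) (n := n) (m := 1)).finrank_eq,
      Module.finrank_tensorProduct,
      (PiTensorProduct.subsingletonEquiv (R := k) (s := fun _ : Fin 1 => V) 0).finrank_eq]
    exact ih.mul h

theorem symS_mul {ρ : Representation k G V} {j : ℕ} (h : SymS (tp ρ j)) (r : ℕ) :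
    SymS (tp ρ (j * r)) := by
  induction r with
  | zero => exact SymS.triv.equiv _ (tp_zero_equiv ρ)
  | succ r ih => exact (ih.prod h).equiv _ (tp_succ_equiv ρ (j * r) j)

section HT

variable {X Y : Type*} [AddCommGroup X] [Module k X] [AddCommGroup Y] [Module k Y]

theorem HasTriv.prod {σ : Representation k G X} {τ : Representation k G Y} (h₁ : HasTriv σ)
    (h₂ : HasTriv τ) : HasTriv (σ.tprod τ) := by
  obtain ⟨t, w, ht, hw, hn⟩ := h₁
  obtain ⟨t', w', ht', hw', hn'⟩ := h₂
  refine ⟨LinearMap.mul' k k ∘ₗ TensorProduct.map t t', w ⊗ₜ w', fun g s => ?_, fun g => ?_, ?_⟩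
  · induction s using TensorProduct.induction_on with
    | zero => simp
    | tmul x y =>
      show t (σ g x) * t' (τ g y) = t x * t' y
      rw [ht, ht']
    | add s s' h h' => rw [map_add, map_add, map_add, h, h']
  · show σ g w ⊗ₜ τ g w' = w ⊗ₜ w'
    rw [hw, hw']
  · show t w * t' w' ≠ 0
    exact mul_ne_zero hn hn'

theorem HasTriv.equiv {σ : Representation k G X} {τ : Representation k G Y} (h : HasTriv σ)
    (e : X ≃ₗ[k] Y) (he : ∀ g x, e (σ g x) = τ g (e x)) : HasTriv τ := by
  obtain ⟨t, w, ht, hw, hn⟩ := h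
  have hEs : ∀ g s, e.symm (τ g s) = σ g (e.symm s) := fun g s => by
    apply e.injective
    rw [he, e.apply_symm_apply, e.apply_symm_apply]
  refine ⟨t ∘ₗ e.symm.toLinearMap, e w, fun g y => ?_, fun g => ?_, ?_⟩
  · show t (e.symm (τ g y)) = t (e.symm y)
    rw [hEs, ht]
  · rw [← he, hw]
  · show t (e.symm (e w)) ≠ 0
    rw [e.symm_apply_apply]
    exact hn

theorem HasTriv.equiv' {σ : Representation k G X} {τ : Representation k G Y} (h : HasTriv τ)
    (e : X ≃ₗ[k] Y) (he : ∀ g x, e (σ g x) = τ g (e x)) : HasTriv σ :=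
  h.equiv e.symm fun g s => by
    apply e.injective
    rw [he, e.apply_symm_apply, e.apply_symm_apply]

theorem hasTriv_triv : HasTriv (Representation.trivial k G k) :=
  ⟨LinearMap.id, 1, fun _ _ => rfl, fun _ => rfl, one_ne_zero⟩

end HT

theorem hasTriv_mul {ρ : Representation k G V} {r : ℕ} (h : HasTriv (tp ρ r)) (j : ℕ) :
    HasTriv (tp ρ (r * j)) := by
  induction j with
  | zero => exact hasTriv_triv.equiv _ (tp_zero_equiv ρ)
  | succ j ih => exact (ih.prod h).equiv _ (tp_succ_equiv ρ (r * j) r)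

/-- if `V` is torsion and the canonical map to the symmetric square of `V^{⊗ j}` is not negligible, then
`V^{⊗ j}` has a trivial summand -/
theorem sym_core [CharP k 2] [PerfectRing k 2] [FiniteDimensional k V] [Finite G] (hG : IsPGroup 2 G)
    {ρ : Representation k G V} (hodd : Odd (finrank k V)) (hI : IsInv ρ) {r : ℕ} (hr : 1 ≤ r)
    (hrt : HasTriv (tp ρ r)) (j : ℕ) {Y : Type*} [AddCommGroup Y] [Module k Y]
    {η : Representation k G Y} (t : (⨂[k]^j V) ⊗[k] ((⨂[k]^j V) ⊗[k] Y) →ₗ[k] k)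
    (ht : ∀ g s, t (((tp ρ j).tprod ((tp ρ j).tprod η)) g s) = t s)
    (hsym : ∀ x y z, t (x ⊗ₜ (y ⊗ₜ z)) = t (y ⊗ₜ (x ⊗ₜ z))) (w : (⨂[k]^j V) ⊗[k] ((⨂[k]^j V) ⊗[k] Y))
    (hw : ∀ g, ((tp ρ j).tprod ((tp ρ j).tprod η)) g w = w) (hne : t w ≠ 0) : HasTriv (tp ρ j) := by
  have hI' := isInv_tp hI j
  have hodd' := odd_tp hodd j
  obtain ⟨b, hb, hbc, hbt, -⟩ := exists_b t ht hsym w hw
  have hS : SymS (tp ρ j) := by
    refine ⟨(t w)⁻¹ • b, fun g => by rw [map_smul, hb], fun s => ?_, fun l hl => ?_⟩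
    · rw [LinearMap.smul_apply, LinearMap.smul_apply, hbc]
    · rw [map_smul, m2 hodd' hI' hb hl, hbt, smul_eq_mul, ← mul_assoc, inv_mul_cancel₀ hne, one_mul]
  obtain ⟨t', w', ht', hw', hn'⟩ : HasTriv ((tp ρ j).tprod (tp ρ (j * (r - 1)))) := by
    have h1 := hasTriv_mul hrt j
    have h2 : r * j = j + j * (r - 1) := by
      obtain ⟨q, rfl⟩ : ∃ q, r = q + 1 := ⟨r - 1, by omega⟩
      rw [Nat.add_sub_cancel]
      ring
    rw [h2] at h1
    exact h1.equiv' _ (tp_succ_equiv ρ j (j * (r - 1)))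
  obtain ⟨a, ha, hac, hat⟩ := exists_a (symS_mul hS (r - 1)) t' ht' w' hw'
  have hab : LinearMap.trace k _ (a ∘ₗ b) ≠ 0 := by
    have h := m2 hodd' hI' ha (l := T2 b) (fun g x => by
      rw [T2_apply, T2_apply]
      have h1 : cj ((tp ρ j).tprod (tp ρ j)) g x ∘ₗ b = cj ((tp ρ j).tprod (tp ρ j)) g (x ∘ₗ b) := by
        rw [cj_comp, hb]
      rw [h1, tr_cj])
    rw [T2_apply, T2_apply, LinearMap.id_comp, hat, hbt] at h
    rw [h]
    exact mul_ne_zero (mul_ne_zero hn' hn') hne
  refine core_sum hG hodd' hI' (a ∘ₗ b) (fun g => by rw [cj_comp, ha, hb]) (fun s => hac _) (fun s => ?_) hab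
  show a (b _) = a (b s)
  rw [hbc]

end H22GQ
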