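import Pool.Agent.H22.GQ.Mirror

set_option autoImplicit false

open Module TensorProduct

namespace H22GQ

/-- The trivial representation is a direct summand of `σ`, with projection given by an invariant linear form `t`
and inclusion given by an invariant vector `w`, at least one of which is fixed by the linear map `f`. -/
def HasTrivFix {k G X : Type*} [Field k] [Group G] [AddCommGroup X] [Module k X]
    (σ : Representation k G X) (f : X →ₗ[k] X) : Prop :=
  ∃ (t : X →ₗ[k] k) (w : X), (∀ g x, t (σ g x) = t x) ∧ (∀ g, σ g w = w) ∧ t w ≠ 0 ∧
    (t ∘ₗ f = t ∨ f w = w)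

/-- The number of 2-cycles of a permutation `s` with `s * s = 1`. -/
def twoCycles {m : ℕ} (s : Equiv.Perm (Fin m)) : ℕ := Fintype.card {i : Fin m // i < s i}

end H22GQ
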