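import Pool.Agent.H22.GQ.Stmt

set_option autoImplicit false

open Module TensorProduct

namespace H22GQ

/-- The trivial representation is a direct summand of `σ`, with projection given by an invariant linear form `t`
and inclusion given by an invariant vector `w`, both fixed by the linear map `f`. -/
def HasTrivBoth {k G X : Type*} [Field k] [Group G] [AddCommGroup X] [Module k X]
    (σ : Representation k G X) (f : X →ₗ[k] X) : Prop :=
  ∃ (t : X →ₗ[k] k) (w : X), (∀ g x, t (σ g x) = t x) ∧ (∀ g, σ g w = w) ∧ t w ≠ 0 ∧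
    t ∘ₗ f = t ∧ f w = w

theorem two_sided' {k G V Y : Type*} [Field k] [IsAlgClosed k] [CharP k 2] [Group G] [Finite G]
    (hG : IsPGroup 2 G) [AddCommGroup V] [Module k V] [FiniteDimensional k V]
    (ρ : Representation k G V) [AddCommGroup Y] [Module k Y] (η : Representation k G Y) (m : ℕ)
    (s : Equiv.Perm (Fin m)) (hs : s * s = 1) (h : HasTrivBoth ((tp ρ m).tprod η) (fx s)) :
    HasTriv (tp ρ (twoCycles s)) := by
  have hk : PerfectRing k 2 := PerfectField.toPerfectRing 2
  obtain ⟨t, w, ht, hw, htw, h1, h2⟩ := h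
  have hs' : ∀ i, s (s i) = i := fun i => by
    rw [← Equiv.Perm.mul_apply, hs]
    rfl
  exact two_sided hG t ht w hw htw s (fixes_of h1) h2 hs'

end H22GQ
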