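import Pool.Agent.H22.GQ.Inv

set_option autoImplicit false

open Module TensorProduct

namespace H22GQ

variable {k G : Type*} [Field k] [Group G] {X : Type*} [AddCommGroup X] [Module k X]

/-- the trivial representation is a direct summand -/
def HasTriv (σ : Representation k G X) : Prop :=
  ∃ (t : X →ₗ[k] k) (w : X), (∀ g x, t (σ g x) = t x) ∧ (∀ g, σ g w = w) ∧ t w ≠ 0

/-- stable submodules -/
def St (σ : Representation k G X) (U : Submodule k X) : Prop := ∀ g, ∀ x ∈ U, σ g x ∈ U

/-- the representation on a stable submodule -/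
def sub (σ : Representation k G X) (U : Submodule k X) (hU : St σ U) : Representation k G U where
  toFun g := (σ g).restrict (hU g)
  map_one' := by
    ext x
    show σ 1 x.1 = x.1
    rw [map_one]
    rfl
  map_mul' g h := by
    ext x
    show σ (g * h) x.1 = σ g (σ h x.1)
    rw [map_mul]
    rfl

theorem sub_apply (σ : Representation k G X) (U : Submodule k X) (hU : St σ U) (g : G) (x : U) :
    ((sub σ U hU g x : U) : X) = σ g x := rfl

theorem exists_summand [FiniteDimensional k X] (σ : Representation k G X) (hodd : Odd (finrank k X)) :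
    ∃ (U N : Submodule k X) (hU : St σ U), St σ N ∧ IsCompl U N ∧ Odd (finrank k U) ∧
      Indec (sub σ U hU) := by
  classical
  let P : ℕ → Prop := fun n => ∃ U N : Submodule k X, St σ U ∧ St σ N ∧ IsCompl U N ∧
    Odd (finrank k U) ∧ finrank k U = n
  have hP : ∃ n, P n := ⟨_, ⊤, ⊥, fun g x _ => Submodule.mem_top, fun g x hx => by
    rw [Submodule.mem_bot] at hx ⊢
    rw [hx, map_zero], isCompl_top_bot, by rw [finrank_top]; exact hodd, rfl⟩
  obtain ⟨U, N, hU, hN, hc, ho, hn⟩ := Nat.find_spec hP
  refine ⟨U, N, hU, hN, hc, ho, ?_, ?_⟩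
  · rw [← Module.finrank_pos_iff (R := k)]
    exact ho.pos
  · intro A B hA hB hAB
    -- one of the two is odd
    have hdim : finrank k A + finrank k B = finrank k U := Submodule.finrank_add_eq_of_isCompl hAB
    have main : ∀ A B : Submodule k U, (∀ g, ∀ x ∈ A, sub σ U hU g x ∈ A) →
        (∀ g, ∀ x ∈ B, sub σ U hU g x ∈ B) → IsCompl A B → Odd (finrank k A) → B = ⊥ := by
      intro A B hA hB hAB hoA
      have hdim : finrank k A + finrank k B = finrank k U := Submodule.finrank_add_eq_of_isCompl hAB
      have hfA : finrank k (A.map U.subtype) = finrank k A :=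
        (Submodule.equivMapOfInjective U.subtype U.subtype_injective A).finrank_eq.symm
      have hmin : finrank k U ≤ finrank k A := by
        rw [hn]
        refine Nat.find_min' hP ⟨A.map U.subtype, B.map U.subtype ⊔ N, ?_, ?_, ?_, by rw [hfA]; exact hoA, hfA⟩
        · rintro g _ ⟨x, hx, rfl⟩
          exact ⟨_, hA g x hx, rfl⟩
        · intro g x hx
          rw [Submodule.mem_sup] at hx ⊢
          obtain ⟨_, ⟨b, hb, rfl⟩, n, hn, rfl⟩ := hx
          refine ⟨_, ⟨_, hB g b hb, rfl⟩, _, hN g n hn, ?_⟩
          rw [map_add]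
          rfl
        · rw [isCompl_iff, Submodule.disjoint_def, Submodule.codisjoint_iff_exists_add_eq] at hc hAB ⊢
          refine ⟨?_, fun z => ?_⟩
          · rintro _ ⟨a, ha, rfl⟩ hx
            rw [Submodule.mem_sup] at hx
            obtain ⟨_, ⟨b, hb, rfl⟩, n, hn, hbn⟩ := hx
            have h1 : n = 0 := by
              refine hc.1 n ?_ hn
              have h2 : n = (a - b : U) := by
                rw [AddSubgroupClass.coe_sub]
                exact eq_sub_of_add_eq' hbn
              rw [h2]
              exact (a - b).2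
            rw [h1, add_zero] at hbn
            have h3 : b = a := U.subtype_injective hbn
            rw [h3] at hb
            rw [hAB.1 a ha hb]
            rfl
          · obtain ⟨u, n, hu, hn, rfl⟩ := hc.2 z
            obtain ⟨a, b, ha, hb, hab⟩ := hAB.2 ⟨u, hu⟩
            refine ⟨a, b + n, ⟨a, ha, rfl⟩, Submodule.mem_sup.2 ⟨b, ⟨b, hb, rfl⟩, n, hn, rfl⟩, ?_⟩
            rw [← add_assoc]
            congr 1
            exact congrArg Subtype.val hab
      have : finrank k B = 0 := by omega
      exact Submodule.finrank_eq_zero.1 this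
    rcases Nat.even_or_odd (finrank k A) with h | h
    · left
      refine main B A hB hA hAB.symm ?_
      rw [← hdim] at ho
      rw [Nat.odd_add'] at ho
      exact ho.2 h
    · right
      exact main A B hA hB hAB h

/-- the argument for decomposable representations -/
theorem core_sum [CharP k 2] [PerfectRing k 2] [FiniteDimensional k X] [Finite G] (hG : IsPGroup 2 G)
    {σ : Representation k G X} (hodd : Odd (finrank k X)) (hI : IsInv σ)
    (c : X ⊗[k] X →ₗ[k] X ⊗[k] X) (hc : ∀ g, cj (σ.tprod σ) g c = c)
    (h1 : ∀ s, TensorProduct.comm k X X (c s) = c s) (h2 : ∀ s, c (TensorProduct.comm k X X s) = c s)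
    (h3 : LinearMap.trace k _ c ≠ 0) : HasTriv σ := by
  obtain ⟨U, N, hU, hN, hcm, ho, hind⟩ := exists_summand σ hodd
  let i : U →ₗ[k] X := U.subtype
  let p : X →ₗ[k] U := Submodule.projectionOnto U N hcm
  have hpi : ∀ u, p (i u) = u := fun u => Submodule.projectionOnto_apply_left hcm u
  have hig : ∀ g u, i (sub σ U hU g u) = σ g (i u) := fun g u => rfl
  have hpg : ∀ g x, p (σ g x) = sub σ U hU g (p x) := by
    intro g x
    rw [isCompl_iff, Submodule.codisjoint_iff_exists_add_eq] at hcm
    obtain ⟨u, n, hu, hn, rfl⟩ := hcm.2 x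
    have e1 : ∀ n ∈ N, p n = 0 := fun n hn => (Submodule.projectionOnto_apply_eq_zero_iff _).2 hn
    have e2 : p u = ⟨u, hu⟩ := hpi ⟨u, hu⟩
    have e3 : p (σ g u) = ⟨σ g u, hU g u hu⟩ := hpi ⟨σ g u, hU g u hu⟩
    rw [map_add, map_add, e1 _ (hN g n hn), map_add, e1 n hn, e2, e3, add_zero, add_zero]
    rfl
  let c' : U ⊗[k] U →ₗ[k] U ⊗[k] U := TensorProduct.map p p ∘ₗ c ∘ₗ TensorProduct.map i i
  have e1 : ∀ g s, TensorProduct.map i i ((sub σ U hU).tprod (sub σ U hU) g s) =
      (σ.tprod σ) g (TensorProduct.map i i s) := by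
    intro g s
    induction s using TensorProduct.induction_on with
    | zero => simp
    | tmul x y => rfl
    | add s s' h h' => rw [map_add, map_add, map_add, map_add, h, h']
  have e2 : ∀ g s, TensorProduct.map p p ((σ.tprod σ) g s) =
      (sub σ U hU).tprod (sub σ U hU) g (TensorProduct.map p p s) := by
    intro g s
    induction s using TensorProduct.induction_on with
    | zero => simp
    | tmul x y =>
      show p (σ g x) ⊗ₜ p (σ g y) = sub σ U hU g (p x) ⊗ₜ sub σ U hU g (p y)
      rw [hpg, hpg]
    | add s s' h h' => rw [map_add, map_add, map_add, map_add, h, h']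
  have e3 : ∀ (A B : Type _) [AddCommGroup A] [Module k A] [AddCommGroup B] [Module k B]
      (f : A →ₗ[k] B) (s : A ⊗[k] A), TensorProduct.comm k B B (TensorProduct.map f f s) =
      TensorProduct.map f f (TensorProduct.comm k A A s) := by
    intro A B _ _ _ _ f s
    induction s using TensorProduct.induction_on with
    | zero => simp
    | tmul x y => rfl
    | add s s' h h' => rw [map_add, map_add, map_add, map_add, h, h']
  have hcg : ∀ g s, c ((σ.tprod σ) g s) = (σ.tprod σ) g (c s) := by
    intro g s
    conv_lhs => rw [← hc g]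
    rw [cj_apply, LinearMap.comp_apply, LinearMap.comp_apply, inv_self]
  let l : (X ⊗[k] X →ₗ[k] X ⊗[k] X) →ₗ[k] k :=
    { toFun := fun x => LinearMap.trace k _ (TensorProduct.map p p ∘ₗ x ∘ₗ TensorProduct.map i i)
      map_add' := fun x x' => by rw [LinearMap.add_comp, LinearMap.comp_add, map_add]
      map_smul' := fun a x => by rw [LinearMap.smul_comp, LinearMap.comp_smul, map_smul, RingHom.id_apply] }
  have lap : ∀ x, l x = LinearMap.trace k _ (TensorProduct.map p p ∘ₗ x ∘ₗ TensorProduct.map i i) :=
    fun x => rfl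
  have lI : InvF (σ.tprod σ) l := by
    intro g x
    rw [lap, lap, ← tr_cj ((sub σ U hU).tprod (sub σ U hU)) g
      (TensorProduct.map p p ∘ₗ x ∘ₗ TensorProduct.map i i)]
    congr 1
    refine LinearMap.ext fun s => ?_
    show TensorProduct.map p p ((σ.tprod σ) g (x ((σ.tprod σ) g⁻¹ (TensorProduct.map i i s)))) =
      (sub σ U hU).tprod (sub σ U hU) g (TensorProduct.map p p (x (TensorProduct.map i i
        ((sub σ U hU).tprod (sub σ U hU) g⁻¹ s))))
    rw [e2, e1]
  have hl := m2 hodd hI hc lI
  have hlid : l LinearMap.id = 1 := by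
    rw [lap, LinearMap.id_comp, ← TensorProduct.map_comp]
    have : p ∘ₗ i = LinearMap.id := LinearMap.ext hpi
    rw [this, TensorProduct.map_id, LinearMap.trace_id, Module.finrank_tensorProduct]
    obtain ⟨m, hm⟩ := ho
    have h2 : (2 : k) = 0 := by exact_mod_cast CharP.cast_eq_zero k 2
    rw [hm]
    push_cast
    rw [h2]
    ring
  have hU1 : finrank k U = 1 := by
    refine core hG hind ho c' (fun g s => ?_) (fun s => ?_) (fun s => ?_) ?_
    · show TensorProduct.map p p (c (TensorProduct.map i i ((sub σ U hU).tprod (sub σ U hU) g s))) =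
        (sub σ U hU).tprod (sub σ U hU) g (TensorProduct.map p p (c (TensorProduct.map i i s)))
      rw [e1, hcg, e2]
    · show TensorProduct.comm k U U (TensorProduct.map p p (c (TensorProduct.map i i s))) =
        TensorProduct.map p p (c (TensorProduct.map i i s))
      rw [e3, h1]
    · show TensorProduct.map p p (c (TensorProduct.map i i (TensorProduct.comm k U U s))) =
        TensorProduct.map p p (c (TensorProduct.map i i s))
      rw [← e3, h2]
    · have h : LinearMap.trace k _ c' = l c := rfl
      rw [h, hl, hlid, mul_one]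
      exact h3
  obtain ⟨v, hv, hvG⟩ := @exists_fixed k G U _ _ _ _ _ _ hG (sub σ U hU) hind.1
  have hspan : ∀ u : U, ∃ a : k, a • v = u := fun u => exists_smul_eq_of_finrank_eq_one hU1 hv u
  have htriv : ∀ g u, sub σ U hU g u = u := by
    intro g u
    obtain ⟨a, rfl⟩ := hspan u
    rw [map_smul, hvG]
  obtain ⟨φ, hφ⟩ : ∃ φ : U →ₗ[k] k, φ v ≠ 0 := by
    by_contra hcon
    push Not at hcon
    exact hv ((Module.forall_dual_apply_eq_zero_iff k v).1 hcon)
  refine ⟨φ ∘ₗ p, i v, fun g x => ?_, fun g => ?_, ?_⟩
  · show φ (p (σ g x)) = φ (p x)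
    rw [hpg, htriv]
  · rw [← hig, hvG]
  · show φ (p (i v)) ≠ 0
    rw [hpi]
    exact hφ

end H22GQ
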