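import Pool.Agent.H22.GQ.M2

set_option autoImplicit false

open Module TensorProduct

namespace H22GQ

variable {k G : Type*} [Field k] [Group G]

/-- `id` is congruent to a symmetric map `Y ⊗ Y → Y ⊗ Y` modulo negligible maps -/
def SymS {Y : Type*} [AddCommGroup Y] [Module k Y] (σ : Representation k G Y) : Prop :=
  ∃ b : Y ⊗[k] Y →ₗ[k] Y ⊗[k] Y, (∀ g, cj (σ.tprod σ) g b = b) ∧
    (∀ s, b (TensorProduct.comm k Y Y s) = b s) ∧
    ∀ l : (Y ⊗[k] Y →ₗ[k] Y ⊗[k] Y) →ₗ[k] k, InvF (σ.tprod σ) l → l b = l LinearMap.id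

section Prod

variable {Y Z : Type*} [AddCommGroup Y] [Module k Y] [AddCommGroup Z] [Module k Z]

/-- shuffle -/
noncomputable def Q : (Y ⊗[k] Y →ₗ[k] Y ⊗[k] Y) →ₗ[k] (Z ⊗[k] Z →ₗ[k] Z ⊗[k] Z) →ₗ[k]
    ((Y ⊗[k] Z) ⊗[k] (Y ⊗[k] Z) →ₗ[k] (Y ⊗[k] Z) ⊗[k] (Y ⊗[k] Z)) :=
  LinearMap.mk₂ k (fun x y => (tensorTensorTensorComm k Y Z Y Z).symm.toLinearMap ∘ₗ
      TensorProduct.map x y ∘ₗ (tensorTensorTensorComm k Y Z Y Z).toLinearMap)
    (fun x x' y => by
      rw [TensorProduct.map_add_left, LinearMap.add_comp, LinearMap.comp_add])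
    (fun a x y => by
      rw [TensorProduct.map_smul_left, LinearMap.smul_comp, LinearMap.comp_smul])
    (fun x y y' => by
      rw [TensorProduct.map_add_right, LinearMap.add_comp, LinearMap.comp_add])
    (fun a x y => by
      rw [TensorProduct.map_smul_right, LinearMap.smul_comp, LinearMap.comp_smul])

theorem Q_apply (x : Y ⊗[k] Y →ₗ[k] Y ⊗[k] Y) (y : Z ⊗[k] Z →ₗ[k] Z ⊗[k] Z)
    (s : (Y ⊗[k] Z) ⊗[k] (Y ⊗[k] Z)) :
    tensorTensorTensorComm k Y Z Y Z (Q x y s) =
      TensorProduct.map x y (tensorTensorTensorComm k Y Z Y Z s) := by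
  show tensorTensorTensorComm k Y Z Y Z ((tensorTensorTensorComm k Y Z Y Z).symm _) = _
  rw [LinearEquiv.apply_symm_apply]
  rfl

theorem tt_map (f f' : Y →ₗ[k] Y) (h h' : Z →ₗ[k] Z) (s : (Y ⊗[k] Z) ⊗[k] (Y ⊗[k] Z)) :
    tensorTensorTensorComm k Y Z Y Z
      (TensorProduct.map (TensorProduct.map f h) (TensorProduct.map f' h') s) =
      TensorProduct.map (TensorProduct.map f f') (TensorProduct.map h h')
        (tensorTensorTensorComm k Y Z Y Z s) := by
  have : (tensorTensorTensorComm k Y Z Y Z).toLinearMap ∘ₗ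
      (TensorProduct.map (TensorProduct.map f h) (TensorProduct.map f' h')) =
      TensorProduct.map (TensorProduct.map f f') (TensorProduct.map h h') ∘ₗ
        (tensorTensorTensorComm k Y Z Y Z).toLinearMap := by
    ext a b c d
    rfl
  exact LinearMap.congr_fun this s

theorem tt_comm (s : (Y ⊗[k] Z) ⊗[k] (Y ⊗[k] Z)) :
    tensorTensorTensorComm k Y Z Y Z (TensorProduct.comm k (Y ⊗[k] Z) (Y ⊗[k] Z) s) =
      TensorProduct.map (TensorProduct.comm k Y Y).toLinearMap (TensorProduct.comm k Z Z).toLinearMap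
        (tensorTensorTensorComm k Y Z Y Z s) := by
  have : (tensorTensorTensorComm k Y Z Y Z).toLinearMap ∘ₗ
      (TensorProduct.comm k (Y ⊗[k] Z) (Y ⊗[k] Z)).toLinearMap =
      TensorProduct.map (TensorProduct.comm k Y Y).toLinearMap (TensorProduct.comm k Z Z).toLinearMap ∘ₗ
        (tensorTensorTensorComm k Y Z Y Z).toLinearMap := by
    ext a b c d
    rfl
  exact LinearMap.congr_fun this s

theorem Q_id : Q (LinearMap.id : Y ⊗[k] Y →ₗ[k] Y ⊗[k] Y) (LinearMap.id : Z ⊗[k] Z →ₗ[k] Z ⊗[k] Z) =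
    LinearMap.id := by
  refine LinearMap.ext fun s => (tensorTensorTensorComm k Y Z Y Z).injective ?_
  rw [Q_apply, TensorProduct.map_id]
  rfl

theorem Q_cj (σ : Representation k G Y) (τ : Representation k G Z) (g : G)
    (x : Y ⊗[k] Y →ₗ[k] Y ⊗[k] Y) (y : Z ⊗[k] Z →ₗ[k] Z ⊗[k] Z) :
    Q (cj (σ.tprod σ) g x) (cj (τ.tprod τ) g y) =
      cj ((σ.tprod τ).tprod (σ.tprod τ)) g (Q x y) := by
  refine LinearMap.ext fun s => (tensorTensorTensorComm k Y Z Y Z).injective ?_
  rw [Q_apply, cj_map]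
  show TensorProduct.map (TensorProduct.map (σ g) (σ g)) (TensorProduct.map (τ g) (τ g))
    (TensorProduct.map x y (TensorProduct.map (TensorProduct.map (σ g⁻¹) (σ g⁻¹))
      (TensorProduct.map (τ g⁻¹) (τ g⁻¹)) (tensorTensorTensorComm k Y Z Y Z s))) =
    tensorTensorTensorComm k Y Z Y Z (TensorProduct.map (TensorProduct.map (σ g) (τ g))
      (TensorProduct.map (σ g) (τ g)) (Q x y (TensorProduct.map (TensorProduct.map (σ g⁻¹) (τ g⁻¹))
      (TensorProduct.map (σ g⁻¹) (τ g⁻¹)) s)))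
  rw [tt_map, Q_apply, tt_map]

theorem SymS.prod {σ : Representation k G Y} {τ : Representation k G Z} (h₁ : SymS σ) (h₂ : SymS τ) :
    SymS (σ.tprod τ) := by
  obtain ⟨b₁, e₁, c₁, l₁⟩ := h₁
  obtain ⟨b₂, e₂, c₂, l₂⟩ := h₂
  refine ⟨Q b₁ b₂, fun g => by rw [← Q_cj, e₁, e₂], fun s => ?_, fun l hl => ?_⟩
  · apply (tensorTensorTensorComm k Y Z Y Z).injective
    rw [Q_apply, Q_apply, tt_comm]
    have : TensorProduct.map b₁ b₂ ∘ₗ TensorProduct.map (TensorProduct.comm k Y Y).toLinearMap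
        (TensorProduct.comm k Z Z).toLinearMap = TensorProduct.map b₁ b₂ := by
      rw [← TensorProduct.map_comp]
      congr 1
      · exact LinearMap.ext c₁
      · exact LinearMap.ext c₂
    exact LinearMap.congr_fun this _
  · have h1 := l₁ (l ∘ₗ Q.flip b₂) (fun g x => by
      show l (Q (cj (σ.tprod σ) g x) b₂) = l (Q x b₂)
      have h3 := hl g (Q x b₂)
      rw [← Q_cj, e₂] at h3
      exact h3)
    have h2 := l₂ (l ∘ₗ Q LinearMap.id) (fun g x => by
      show l (Q LinearMap.id (cj (τ.tprod τ) g x)) = l (Q LinearMap.id x)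
      have h3 := hl g (Q LinearMap.id x)
      have h4 : cj (σ.tprod σ) g LinearMap.id = LinearMap.id := cj_one _ g
      rw [← Q_cj, h4] at h3
      exact h3)
    have h3 : l (Q b₁ b₂) = l (Q LinearMap.id b₂) := h1
    have h4 : l (Q LinearMap.id b₂) = l (Q LinearMap.id LinearMap.id) := h2
    rw [h3, h4, Q_id]

theorem SymS.equiv {σ : Representation k G Y} {τ : Representation k G Z} (h : SymS σ) (e : Y ≃ₗ[k] Z)
    (he : ∀ g y, e (σ g y) = τ g (e y)) : SymS τ := by
  obtain ⟨b, e₁, c₁, l₁⟩ := h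
  let E : Y ⊗[k] Y ≃ₗ[k] Z ⊗[k] Z := TensorProduct.congr e e
  have hE : ∀ g s, E ((σ.tprod σ) g s) = (τ.tprod τ) g (E s) := by
    intro g s
    induction s using TensorProduct.induction_on with
    | zero => simp
    | tmul x y =>
      show e (σ g x) ⊗ₜ e (σ g y) = τ g (e x) ⊗ₜ τ g (e y)
      rw [he, he]
    | add s s' h h' => rw [map_add, map_add, map_add, h, h', map_add]
  have hEc : ∀ s, E (TensorProduct.comm k Y Y s) = TensorProduct.comm k Z Z (E s) := by
    intro s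
    induction s using TensorProduct.induction_on with
    | zero => simp
    | tmul x y => rfl
    | add s s' h h' => rw [map_add, map_add, map_add, h, h', map_add]
  have hEs : ∀ g s, E.symm ((τ.tprod τ) g s) = (σ.tprod σ) g (E.symm s) := fun g s => by
    apply E.injective
    rw [hE, E.apply_symm_apply, E.apply_symm_apply]
  let C : (Y ⊗[k] Y →ₗ[k] Y ⊗[k] Y) →ₗ[k] (Z ⊗[k] Z →ₗ[k] Z ⊗[k] Z) := (E.conj).toLinearMap
  have hC : ∀ x s, C x s = E (x (E.symm s)) := fun x s => rfl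
  have hCg : ∀ g x, C (cj (σ.tprod σ) g x) = cj (τ.tprod τ) g (C x) := by
    intro g x
    refine LinearMap.ext fun s => ?_
    show E ((σ.tprod σ) g (x ((σ.tprod σ) g⁻¹ (E.symm s)))) =
      (τ.tprod τ) g (E (x (E.symm ((τ.tprod τ) g⁻¹ s))))
    rw [hE, hEs]
  refine ⟨C b, fun g => by rw [← hCg, e₁], fun s => ?_, fun l hl => ?_⟩
  · rw [hC, hC]
    congr 1
    have : E.symm (TensorProduct.comm k Z Z s) = TensorProduct.comm k Y Y (E.symm s) := by
      apply E.injective
      rw [hEc, E.apply_symm_apply, E.apply_symm_apply]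
    rw [this, c₁]
  · have h1 := l₁ (l ∘ₗ C) (fun g x => by
      show l (C _) = l (C _)
      rw [hCg, hl])
    have h2 : l (C b) = l (C LinearMap.id) := h1
    rw [h2]
    congr 1
    refine LinearMap.ext fun s => ?_
    rw [hC]
    exact E.apply_symm_apply s

end Prod

theorem SymS.triv : SymS (Representation.trivial k G k) := by
  refine ⟨LinearMap.id, fun g => cj_one _ g, fun s => ?_, fun l _ => rfl⟩
  show TensorProduct.comm k k k s = s
  induction s using TensorProduct.induction_on with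
  | zero => simp
  | tmul x y =>
    rw [TensorProduct.comm_tmul]
    calc y ⊗ₜ[k] x = (y • (1 : k)) ⊗ₜ[k] (x • (1 : k)) := by simp
      _ = (x • (1 : k)) ⊗ₜ[k] (y • (1 : k)) := by
        rw [TensorProduct.smul_tmul_smul, TensorProduct.smul_tmul_smul, mul_comm]
      _ = x ⊗ₜ[k] y := by simp
  | add s s' h h' => rw [map_add, h, h']

end H22GQ
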