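import Mathlib

set_option autoImplicit false

open Module TensorProduct

namespace H22GQ

/-- `f, x ↦ tr (x f)` -/
noncomputable def T2 {k : Type*} [Field k] {X : Type*} [AddCommGroup X] [Module k X] : (X →ₗ[k] X) →ₗ[k] (X →ₗ[k] X) →ₗ[k] k :=
  LinearMap.mk₂ k (fun f x => LinearMap.trace k X (x ∘ₗ f))
    (fun f f' x => by rw [LinearMap.comp_add, map_add])
    (fun a f x => by rw [LinearMap.comp_smul, map_smul])
    (fun f x x' => by rw [LinearMap.add_comp, map_add])
    (fun a f x => by rw [LinearMap.smul_comp, map_smul])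

theorem T2_apply {k : Type*} [Field k] {X : Type*} [AddCommGroup X] [Module k X] (f x : X →ₗ[k] X) : T2 f x = LinearMap.trace k X (x ∘ₗ f) := rfl

section Cm

variable {k : Type*} [Field k] {X : Type*} [AddCommGroup X] [Module k X] [FiniteDimensional k X]

/-- the endomorphism `C` with `μ x = tr (x C)` -/
noncomputable def Cmap : ((X →ₗ[k] X) →ₗ[k] k) →ₗ[k] (X →ₗ[k] X) where
  toFun μ :=
    { toFun := fun v => (Module.evalEquiv k X).symm (μ ∘ₗ (LinearMap.smulRightₗ.flip v))
      map_add' := fun v v' => by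
        rw [← map_add]
        congr 1
        ext φ
        simp
      map_smul' := fun a v => by
        rw [RingHom.id_apply, ← map_smul]
        congr 1
        ext φ
        simp }
  map_add' μ μ' := by
    ext v
    show (Module.evalEquiv k X).symm _ = (Module.evalEquiv k X).symm _ + (Module.evalEquiv k X).symm _
    rw [← map_add]
    congr 1
  map_smul' a μ := by
    ext v
    show (Module.evalEquiv k X).symm _ = a • (Module.evalEquiv k X).symm _
    rw [← map_smul]
    congr 1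

theorem Cmap_rank (μ : (X →ₗ[k] X) →ₗ[k] k) (φ : Dual k X) (v : X) :
    φ (Cmap μ v) = μ (φ.smulRight v) := by
  show φ ((Module.evalEquiv k X).symm _) = _
  rw [Module.apply_evalEquiv_symm_apply]
  rfl

theorem tr_rank (φ : Dual k X) (v : X) (C : X →ₗ[k] X) :
    LinearMap.trace k X (φ.smulRight v ∘ₗ C) = φ (C v) := by
  have h : φ.smulRight v ∘ₗ C = (φ ∘ₗ C).smulRight v := by
    ext u
    rfl
  rw [h, LinearMap.trace_smulRight]
  rfl

theorem sum_rank (x : X →ₗ[k] X) :
    x = ∑ i, ((Module.finBasis k X).coord i).smulRight (x (Module.finBasis k X i)) := by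
  refine (Module.finBasis k X).ext fun j => ?_
  rw [LinearMap.sum_apply, Finset.sum_eq_single j]
  · simp
  · intro i _ hij
    simp [hij.symm]
  · intro h
    exact absurd (Finset.mem_univ j) h

theorem Cmap_spec (μ : (X →ₗ[k] X) →ₗ[k] k) (x : X →ₗ[k] X) :
    LinearMap.trace k X (x ∘ₗ Cmap μ) = μ x := by
  rw [← T2_apply]
  conv_lhs => rw [sum_rank x]
  conv_rhs => rw [sum_rank x]
  rw [map_sum, map_sum]
  refine Finset.sum_congr rfl fun i _ => ?_
  rw [T2_apply, tr_rank, Cmap_rank]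

theorem tr_uniq {C C' : X →ₗ[k] X}
    (h : ∀ x, LinearMap.trace k X (x ∘ₗ C) = LinearMap.trace k X (x ∘ₗ C')) : C = C' := by
  ext v
  rw [← sub_eq_zero]
  refine (Module.forall_dual_apply_eq_zero_iff k _).1 fun φ => ?_
  rw [map_sub, ← tr_rank, ← tr_rank, h, sub_self]

end Cm

variable {k G V : Type*} [Field k] [Group G] [AddCommGroup V] [Module k V]

/-- conjugation -/
def cj (ρ : Representation k G V) (g : G) : (V →ₗ[k] V) →ₗ[k] (V →ₗ[k] V) where
  toFun x := ρ g ∘ₗ x ∘ₗ ρ g⁻¹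
  map_add' x y := by
    ext v
    simp
  map_smul' a x := by
    ext v
    simp

theorem cj_apply (ρ : Representation k G V) (g : G) (x : V →ₗ[k] V) : cj ρ g x = ρ g ∘ₗ x ∘ₗ ρ g⁻¹ := rfl

theorem inv_self (ρ : Representation k G V) (g : G) (v : V) : ρ g⁻¹ (ρ g v) = v := by
  have : ρ g⁻¹ * ρ g = 1 := by rw [← map_mul, inv_mul_cancel, map_one]
  exact LinearMap.congr_fun this v

theorem self_inv (ρ : Representation k G V) (g : G) (v : V) : ρ g (ρ g⁻¹ v) = v := by
  have : ρ g * ρ g⁻¹ = 1 := by rw [← map_mul, mul_inv_cancel, map_one]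
  exact LinearMap.congr_fun this v

theorem cj_comp (ρ : Representation k G V) (g : G) (x y : V →ₗ[k] V) :
    cj ρ g (x ∘ₗ y) = cj ρ g x ∘ₗ cj ρ g y := by
  ext v
  simp [cj_apply]

theorem cj_one (ρ : Representation k G V) (g : G) : cj ρ g 1 = 1 := by
  ext v
  simp [cj_apply]

theorem tr_cj [FiniteDimensional k V] (ρ : Representation k G V) (g : G) (x : V →ₗ[k] V) :
    LinearMap.trace k V (cj ρ g x) = LinearMap.trace k V x := by
  rw [cj_apply, LinearMap.trace_comp_comm']
  congr 1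
  ext v
  simp

theorem cj_cj_inv (ρ : Representation k G V) (g : G) (x : V →ₗ[k] V) : cj ρ g (cj ρ g⁻¹ x) = x := by
  ext v
  simp [cj_apply]

/-- `tr (x * cj g C) = tr (cj g⁻¹ x * C)` -/
theorem tr_cj_move [FiniteDimensional k V] (ρ : Representation k G V) (g : G) (x C : V →ₗ[k] V) :
    LinearMap.trace k V (x ∘ₗ cj ρ g C) = LinearMap.trace k V (cj ρ g⁻¹ x ∘ₗ C) := by
  rw [← tr_cj ρ g (cj ρ g⁻¹ x ∘ₗ C), cj_comp, cj_cj_inv]

theorem Cmap_cj [FiniteDimensional k V] (ρ : Representation k G V) {μ : (V →ₗ[k] V) →ₗ[k] k}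
    (hμ : ∀ g x, μ (cj ρ g x) = μ x) (g : G) : cj ρ g (Cmap μ) = Cmap μ := by
  refine tr_uniq fun x => ?_
  rw [tr_cj_move, Cmap_spec, Cmap_spec, hμ]

/-- `Θ` is an endomorphism of the representation `σ` -/
def EqEnd {X : Type*} [AddCommGroup X] [Module k X] (σ : Representation k G X) (Θ : X →ₗ[k] X) : Prop :=
  ∀ g x, Θ (σ g x) = σ g (Θ x)

/-- `V ⊗ V*` (that is, `End V`) is the sum of the trivial representation and a negligible one: every
endomorphism `Θ` of the representation `End V` has the trace of the element `Θ 1` of `End V`. In odd dimension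
in characteristic 2, `End V` is the sum of the scalars and of the endomorphisms of trace zero, and
`tr Θ - tr (Θ 1)` is the trace of the second component of `Θ`. -/
def IsInv (ρ : Representation k G V) : Prop :=
  ∀ Θ : (V →ₗ[k] V) →ₗ[k] (V →ₗ[k] V), EqEnd (ρ.linHom ρ) Θ →
    LinearMap.trace k (V →ₗ[k] V) Θ = LinearMap.trace k V (Θ LinearMap.id)

variable {E : Type*} [AddCommGroup E] [Module k E]

/-- partial trace with a factor -/
noncomputable def Psi : (V →ₗ[k] V) ⊗[k] E →ₗ[k] (V →ₗ[k] V) →ₗ[k] E :=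
  TensorProduct.lift (LinearMap.smulRightₗ ∘ₗ T2)

theorem Psi_tmul (f : V →ₗ[k] V) (e : E) (x : V →ₗ[k] V) :
    Psi (f ⊗ₜ[k] e) x = LinearMap.trace k V (x ∘ₗ f) • e := rfl

theorem Psi_cj [FiniteDimensional k V] (ρ : Representation k G V) (ε : Representation k G E) (g : G)
    (F : (V →ₗ[k] V) ⊗[k] E) (x : V →ₗ[k] V) :
    Psi (TensorProduct.map (cj ρ g) (ε g) F) (cj ρ g x) = ε g (Psi F x) := by
  induction F using TensorProduct.induction_on with
  | zero => simp
  | tmul f e =>
    rw [TensorProduct.map_tmul, Psi_tmul, Psi_tmul, ← cj_comp, tr_cj, map_smul]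
  | add F F' h h' => rw [map_add, map_add, LinearMap.add_apply, h, h', map_add, LinearMap.add_apply,
      map_add]

theorem stepA [FiniteDimensional k V] {ρ : Representation k G V} (hI : IsInv ρ)
    (ε : Representation k G E) (l : (V →ₗ[k] V) ⊗[k] E →ₗ[k] k)
    (hl : ∀ g s, l (TensorProduct.map (cj ρ g) (ε g) s) = l s) (F : (V →ₗ[k] V) ⊗[k] E)
    (hF : ∀ g, TensorProduct.map (cj ρ g) (ε g) F = F) :
    l F = l (LinearMap.id ⊗ₜ[k] Psi F LinearMap.id) := by
  let Λ : E →ₗ[k] (V →ₗ[k] V) := Cmap ∘ₗ (TensorProduct.curry l).flip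
  have hΛ : ∀ x e, LinearMap.trace k V (x ∘ₗ Λ e) = l (x ⊗ₜ[k] e) := fun x e => Cmap_spec _ x
  have hΛg : ∀ g e, Λ (ε g e) = cj ρ g (Λ e) := by
    intro g e
    refine tr_uniq fun x => ?_
    rw [tr_cj_move, hΛ, hΛ, ← hl g⁻¹, TensorProduct.map_tmul, inv_self]
  have htr : ∀ F : (V →ₗ[k] V) ⊗[k] E, LinearMap.trace k (V →ₗ[k] V) (Λ ∘ₗ Psi F) = l F := by
    intro F
    induction F using TensorProduct.induction_on with
    | zero => simp
    | tmul f e =>
      have h : Λ ∘ₗ Psi (f ⊗ₜ[k] e) = (T2 f).smulRight (Λ e) := by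
        ext1 x
        rw [LinearMap.comp_apply, Psi_tmul, map_smul]
        rfl
      rw [h, LinearMap.trace_smulRight, T2_apply, LinearMap.trace_comp_comm', hΛ]
    | add F F' h h' => rw [map_add, LinearMap.comp_add, map_add, h, h', map_add]
  have h1 := hI (Λ ∘ₗ Psi F) (fun g x => by
    have h2 := Psi_cj ρ ε g F x
    rw [hF] at h2
    show Λ (Psi F (cj ρ g x)) = cj ρ g (Λ (Psi F x))
    rw [h2, hΛg])
  rw [htr] at h1
  rw [h1, LinearMap.comp_apply, ← hΛ, LinearMap.id_comp]

end H22GQ
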